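import Mathlib

set_option autoImplicit false
set_option linter.unusedSectionVars false

namespace Run7.h295

open Finset

/-- six edge blocks and eight cycle blocks (the last one is contained in every row). -/
abbrev Blk := Fin 6 ⊕ Fin 8

/-- the cycles of the complete graph on four vertices, as bit masks, and the full set. -/
def mask : Fin 8 → ℕ := ![56, 38, 21, 11, 30, 45, 51, 63]

/-- incidence of edges and cycles. -/
def inc (j : Fin 6) (z : Fin 8) : Bool := (mask z).testBit j

/-- coordinates of the block classes. -/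
def coefA (B : Blk) (z : Fin 8) : ℤ :=
  match B with
  | Sum.inl j => if inc j z then -1 else 0
  | Sum.inr z' => if z' = z then 1 else 0

/-- the direction of the deep class. -/
def vv (z : Fin 8) : ℤ := if z = 7 then -1 else 1

/-- class of a set of blocks. -/
def cls (S : Finset Blk) (z : Fin 8) : ℤ := ∑ B ∈ S, coefA B z

/-- the special set of blocks: all edges and the three four-cycles. -/
def Cstar : Finset Blk :=
  {Sum.inl 0, Sum.inl 1, Sum.inl 2, Sum.inl 3, Sum.inl 4, Sum.inl 5, Sum.inr 4, Sum.inr 5, Sum.inr 6}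

/-- membership in the `j`-th row. -/
def rowB (j : Fin 6) (B : Blk) : Bool :=
  match B with
  | Sum.inl i => decide (i = j)
  | Sum.inr z => inc j z

/-- the `j`-th row. -/
def row (j : Fin 6) : Finset Blk :=
  Finset.univ.filter (fun B => rowB j B = true)

lemma cls_row : ∀ j z, cls (row j) z = 0 := by decide

lemma cls_Cstar : ∀ z, cls Cstar z = if z = 7 then -6 else -3 := by decide

/-- number of chosen edges on a cycle. -/
def cnt (e : Fin 6 → Bool) (z : Fin 8) : ℕ := ∑ j : Fin 6, if (e j && inc j z) then 1 else 0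

lemma cls_eq (S : Finset Blk) (z : Fin 8) :
    cls S z = (if (Sum.inr z : Blk) ∈ S then 1 else 0)
      - (cnt (fun j => decide ((Sum.inl j : Blk) ∈ S)) z : ℤ) := by
  unfold cls cnt
  have h1 : ∑ B ∈ S, coefA B z = ∑ B : Blk, if B ∈ S then coefA B z else 0 := by
    rw [← Finset.sum_filter]
    congr 1
    ext B; simp
  rw [h1, Fintype.sum_sum_type, add_comm, sub_eq_add_neg]
  congr 1
  · rw [Finset.sum_eq_single z]
    · simp [coefA]
    · intro b _ hb
      simp [coefA, hb]
    · intro h; exact absurd (Finset.mem_univ _) h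
  · push_cast
    rw [← Finset.sum_neg_distrib]
    apply Finset.sum_congr rfl
    intro j _
    by_cases h : (Sum.inl j : Blk) ∈ S
    · by_cases h' : inc j z
      · simp [h, h', coefA]
      · simp [h, h', coefA]
    · simp [h]

/-- the finite core of the argument, over all sets of edges. -/
def coreP (e0 e1 e2 e3 e4 e5 : Bool) (κ : Fin 3) : Bool :=
  let e : Fin 6 → Bool := ![e0, e1, e2, e3, e4, e5]
  !((List.finRange 8).all (fun z =>
      let c := (cnt e z + (if z = 7 then 2 else 1) * κ.val) % 3
      c == 0 || c == 1))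
  || (κ == 0 && ((List.finRange 8).all (fun z => cnt e z == 0 || (cnt e z == 1))
        || (e0 && e1 && e2 && e3 && e4 && e5)))

lemma core_all : ∀ (e0 e1 e2 e3 e4 e5 : Bool) (κ : Fin 3), coreP e0 e1 e2 e3 e4 e5 κ = true := by
  decide

lemma inl_mem_Cstar : ∀ j : Fin 6, (Sum.inl j : Blk) ∈ Cstar := by decide

lemma inr_mem_Cstar : ∀ z : Fin 8, (Sum.inr z : Blk) ∈ Cstar ↔ (4 ≤ z.val ∧ z.val < 7) := by decide

/-- if all minors against the deep direction vanish modulo three, the set is a codeword or the
special set. -/
theorem comb_main (S : Finset Blk) :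
    (∀ z, cls S z = 0) ∨ S = Cstar ∨
      ∃ z z' : Fin 8, ¬ ((3 : ℤ) ∣ vv z * cls S z' - vv z' * cls S z) := by
  by_contra hcon
  push Not at hcon
  obtain ⟨h1, h2, h3⟩ := hcon
  set e : Fin 6 → Bool := fun j => decide ((Sum.inl j : Blk) ∈ S) with he
  have hcls : ∀ z, cls S z = (if (Sum.inr z : Blk) ∈ S then 1 else 0) - (cnt e z : ℤ) :=
    fun z => cls_eq S z
  obtain ⟨κ, hκ⟩ : ∃ κ : Fin 3, (3 : ℤ) ∣ cls S 0 - κ.val := by
    have h4 := Int.emod_nonneg (cls S 0) (b := 3) (by norm_num)
    have h5 := Int.emod_lt_of_pos (cls S 0) (b := 3) (by norm_num)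
    refine ⟨⟨(cls S 0 % 3).toNat, by omega⟩, ?_⟩
    simp only
    omega
  have hv0 : vv 0 = 1 := by decide
  have h4 : ∀ z, (3 : ℤ) ∣ cls S z - vv z * κ.val := by
    intro z
    have h5 := h3 0 z
    rw [hv0, one_mul] at h5
    have h6 : cls S z - vv z * κ.val = (cls S z - vv z * cls S 0) + vv z * (cls S 0 - κ.val) := by ring
    rw [h6]
    exact dvd_add h5 (Dvd.dvd.mul_left hκ _)
  have he' : ![e 0, e 1, e 2, e 3, e 4, e 5] = e := by
    funext j
    fin_cases j <;> rfl
  have h5 := core_all (e 0) (e 1) (e 2) (e 3) (e 4) (e 5) κ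
  unfold coreP at h5
  simp only [he'] at h5
  rw [Bool.or_eq_true] at h5
  have h6 : ∀ z : Fin 8, ((cnt e z + (if z = 7 then 2 else 1) * κ.val) % 3 == 0 ||
      (cnt e z + (if z = 7 then 2 else 1) * κ.val) % 3 == 1) = true := by
    intro z
    have h7 := h4 z
    rw [hcls z] at h7
    have hv : vv z = if z = 7 then -1 else 1 := rfl
    rw [hv] at h7
    rw [Bool.or_eq_true, beq_iff_eq, beq_iff_eq]
    split_ifs at h7 ⊢ <;> push_cast at h7 <;> omega
  rcases h5 with h5 | h5
  · rw [Bool.not_eq_true', ← Bool.not_eq_true, List.all_eq_true] at h5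
    exact h5 (fun z _ => h6 z)
  · rw [Bool.and_eq_true, beq_iff_eq, Bool.or_eq_true] at h5
    obtain ⟨h7, h8⟩ := h5
    subst h7
    have h9 : ∀ z, (3 : ℤ) ∣ cls S z := by
      intro z
      have := h4 z
      simpa using this
    rcases h8 with h8 | h8
    · rw [List.all_eq_true] at h8
      obtain ⟨z, hz⟩ := h1
      have h10 := h8 z (List.mem_finRange z)
      rw [Bool.or_eq_true, beq_iff_eq, beq_iff_eq] at h10
      have h11 := h9 z
      rw [hcls z] at h11 hz
      split_ifs at h11 hz <;> omega
    · simp only [Bool.and_eq_true] at h8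
      obtain ⟨⟨⟨⟨⟨g0, g1⟩, g2⟩, g3⟩, g4⟩, g5⟩ := h8
      have heall : ∀ j, e j = true := by
        intro j
        fin_cases j <;> assumption
      have hcnt : ∀ z, cnt e z = if z = 7 then 6 else if z.val < 4 then 3 else 4 := by
        have : e = fun _ => true := funext heall
        rw [this]
        decide
      apply h2
      ext B
      rcases B with j | z
      · have h10 : (Sum.inl j : Blk) ∈ S := by
          have := heall j
          simpa [he] using this
        have h11 : (Sum.inl j : Blk) ∈ Cstar := inl_mem_Cstar j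
        exact iff_of_true h10 h11
      · have h11 := h9 z
        rw [hcls z, hcnt z] at h11
        have h12 : (Sum.inr z : Blk) ∈ Cstar ↔ (4 ≤ z.val ∧ z.val < 7) := inr_mem_Cstar z
        rw [h12]
        have hz7 : z = 7 ↔ z.val = 7 := by
          constructor
          · rintro rfl; rfl
          · intro h; exact Fin.ext h
        have hz8 := z.isLt
        constructor
        · intro h13
          rw [if_pos h13] at h11
          split_ifs at h11 with h14 h15 <;> first | omega | (push_cast at h11; omega)
        · intro h13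
          by_contra h14
          rw [if_neg h14] at h11
          split_ifs at h11 with h15 h16 <;> first | omega | (push_cast at h11; omega)

end Run7.h295
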