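import Mathlib

set_option autoImplicit false
set_option linter.unusedSectionVars false

namespace Run7.h295

open Finset

section Tile

variable {K W : Type} [Field K] [Fintype K] [AddCommGroup W] [Module (ZMod 9) W] [Fintype W]

/-- An extension of the additive group of `K` by itself, of exponent nine, with a section. -/
structure Ext (K W : Type) [Field K] [Fintype K] [AddCommGroup W] [Module (ZMod 9) W]
    [Fintype W] where
  red : W →+ K
  up : K →+ W
  s : K → W
  red_s : ∀ x, red (s x) = x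
  ker : ∀ w, red w = 0 → ∃ k, w = up k
  up_inj : Function.Injective up
  red_up : ∀ k, red (up k) = 0
  three : ∀ w, (3 : ZMod 9) • w = up (red w)
  card : Fintype.card W = Fintype.card K * Fintype.card K
  two : ∀ u v : K, u + u = v + v → u = v

variable (X : Ext K W) {N : ℕ} [NeZero N]

namespace Ext

lemma red_smul (c : ZMod 9) (w : W) (hw : X.red w = 0) : X.red (c • w) = 0 := by
  have h1 : c • w = c.val • w := by
    conv_lhs => rw [← ZMod.natCast_zmod_val c]
    exact Nat.cast_smul_eq_nsmul (ZMod 9) c.val w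
  rw [h1, map_nsmul, hw, smul_zero]

lemma s_inj : Function.Injective X.s := by
  intro x y h
  rw [← X.red_s x, h, X.red_s]

/-- the translation vectors. -/
def tau (δ : ZMod N → ZMod 9) (γ : K) (x : ZMod N → K) : ZMod N → W :=
  fun j => δ j • X.s (x j) + X.up (γ * x (j - 1))

/-- the tile. -/
def R : Set (ZMod N → W) := Set.range (fun (y : ZMod N → K) (j : ZMod N) => X.s (y j))

lemma tile_of_inj (δ : ZMod N → ZMod 9) (γ : K)
    (h : ∀ x x' y y' : ZMod N → K, (∀ j, X.tau δ γ x j + X.s (y j) = X.tau δ γ x' j + X.s (y' j)) →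
      x = x') (z : ZMod N → W) : ∃! x, z - X.tau δ γ x ∈ X.R (N := N) := by
  classical
  let Φ : (ZMod N → K) × (ZMod N → K) → (ZMod N → W) :=
    fun p j => X.tau δ γ p.1 j + X.s (p.2 j)
  have hΦ : Function.Injective Φ := by
    rintro ⟨x, y⟩ ⟨x', y'⟩ hxy
    have h1 : ∀ j, X.tau δ γ x j + X.s (y j) = X.tau δ γ x' j + X.s (y' j) := fun j => congrFun hxy j
    have h2 := h x x' y y' h1
    subst h2
    have h3 : y = y' := by
      funext j
      exact X.s_inj (add_left_cancel (h1 j))
    rw [h3]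
  have hcard : Fintype.card ((ZMod N → K) × (ZMod N → K)) = Fintype.card (ZMod N → W) := by
    rw [Fintype.card_prod, Fintype.card_fun, Fintype.card_fun, X.card, mul_pow]
  have hbij := (Fintype.bijective_iff_injective_and_card Φ).2 ⟨hΦ, hcard⟩
  obtain ⟨⟨x, y⟩, hxy⟩ := hbij.2 z
  refine ⟨x, ⟨y, ?_⟩, ?_⟩
  · funext j
    have := congrFun hxy j
    simp only [Φ] at this
    simp only [Pi.sub_apply]
    rw [← this]; abel
  · rintro x' ⟨y', hy'⟩
    have h1 : Φ (x', y') = Φ (x, y) := by
      rw [hxy]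
      funext j
      have := congrFun hy' j
      simp only [Pi.sub_apply] at this
      simp only [Φ]
      rw [this]; abel
    exact congrArg Prod.fst (hΦ h1)

/-- first tiling lemma. -/
theorem tile_one (δ : ZMod N → ZMod 9) (γ : K) (hγ : γ ≠ 0) (j0 : ZMod N) (hj0 : δ j0 = 0)
    (z : ZMod N → W) : ∃! x, z - X.tau δ γ x ∈ X.R (N := N) := by
  apply X.tile_of_inj
  intro x x' y y' h
  have step : ∀ j, (δ j = 0 ∨ x j = x' j) → x (j - 1) = x' (j - 1) := by
    intro j hj
    have h1 := h j
    simp only [tau] at h1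
    have h2 : δ j • X.s (x j) = δ j • X.s (x' j) := by
      rcases hj with hj | hj
      · rw [hj, zero_smul, zero_smul]
      · rw [hj]
    rw [h2, add_assoc, add_assoc] at h1
    have h3 := add_left_cancel h1
    have h4 : y j = y' j := by
      have := congrArg X.red h3
      simpa [X.red_up, X.red_s] using this
    rw [h4] at h3
    have h5 := X.up_inj (add_right_cancel h3)
    exact mul_left_cancel₀ hγ h5
  have key : ∀ k : ℕ, x (j0 - 1 - (k : ZMod N)) = x' (j0 - 1 - (k : ZMod N)) := by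
    intro k
    induction k with
    | zero => simpa using step j0 (Or.inl hj0)
    | succ k ih =>
      have := step _ (Or.inr ih)
      have h6 : j0 - 1 - ((k + 1 : ℕ) : ZMod N) = j0 - 1 - (k : ZMod N) - 1 := by
        push_cast; ring
      rw [h6]; exact this
  funext j
  have := key (j0 - 1 - j).val
  rw [ZMod.natCast_zmod_val] at this
  have h7 : j0 - 1 - (j0 - 1 - j) = j := by ring
  rwa [h7] at this

/-- second tiling lemma. -/
theorem tile_two (δ : ZMod N → ZMod 9) (hδ : ∀ j, δ j = 3 ∨ δ j = 6)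
    (z : ZMod N → W) : ∃! x, z - X.tau δ 0 x ∈ X.R (N := N) := by
  apply X.tile_of_inj
  intro x x' y y' h
  funext j
  have h1 := h j
  simp only [tau, zero_mul, map_zero, add_zero] at h1
  have h3 : ∀ u : K, (3 : ZMod 9) • X.s u = X.up u := fun u => by rw [X.three, X.red_s]
  have h6 : ∀ u : K, (6 : ZMod 9) • X.s u = X.up (u + u) := by
    intro u
    have : (6 : ZMod 9) = 3 + 3 := by decide
    rw [this, add_smul, h3, map_add]
  rcases hδ j with hj | hj
  · rw [hj, h3, h3] at h1
    have h4 : y j = y' j := by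
      have := congrArg X.red h1
      simpa [X.red_up, X.red_s] using this
    rw [h4] at h1
    exact X.up_inj (add_right_cancel h1)
  · rw [hj, h6, h6] at h1
    have h4 : y j = y' j := by
      have := congrArg X.red h1
      simpa [X.red_up, X.red_s] using this
    rw [h4] at h1
    exact X.two _ _ (X.up_inj (add_right_cancel h1))

/-- the ranges are subgroups. -/
theorem range_sub (δ : ZMod N → ZMod 9) (γ : K) (hγ : γ ≠ 0) (hδ : ∀ j, δ j = 0 ∨ δ (j + 1) = 0)
    (x x' : ZMod N → K) : ∃ z, X.tau δ γ z = X.tau δ γ x - X.tau δ γ x' := by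
  have hκ : ∀ j, ∃ κ, δ j • X.s (x j) - δ j • X.s (x' j) - δ j • X.s (x j - x' j) = X.up κ := by
    intro j
    apply X.ker
    rw [← smul_sub, ← smul_sub]
    apply X.red_smul
    rw [map_sub, map_sub, X.red_s, X.red_s, X.red_s]
    ring
  choose κ hκ using hκ
  have hκ0 : ∀ j, δ j = 0 → κ j = 0 := by
    intro j hj
    have := hκ j
    rw [hj] at this
    simp only [zero_smul, sub_zero] at this
    apply X.up_inj
    rw [← this, map_zero]
  refine ⟨fun j => x j - x' j + γ⁻¹ * κ (j + 1), ?_⟩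
  funext j
  simp only [tau, Pi.sub_apply, sub_add_cancel]
  have h1 : γ * (x (j - 1) - x' (j - 1) + γ⁻¹ * κ j) = γ * x (j - 1) - γ * x' (j - 1) + κ j := by
    field_simp
  rw [h1, map_add, map_sub]
  rcases hδ j with hj | hj
  · rw [hκ0 j hj, hj]
    simp
  · rw [hκ0 _ hj, mul_zero, add_zero, ← hκ j]
    abel

theorem exists_subgroup (δ : ZMod N → ZMod 9) (γ : K) (hγ : γ ≠ 0)
    (hδ : ∀ j, δ j = 0 ∨ δ (j + 1) = 0) :
    ∃ H : AddSubgroup (ZMod N → W), ∀ w, w ∈ H ↔ ∃ x, X.tau δ γ x = w := by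
  have hne : (Set.range (X.tau δ γ)).Nonempty := ⟨_, ⟨fun _ => 0, rfl⟩⟩
  have hsub : ∀ a ∈ Set.range (X.tau δ γ), ∀ b ∈ Set.range (X.tau δ γ),
      a + -b ∈ Set.range (X.tau δ γ) := by
    rintro _ ⟨x, rfl⟩ _ ⟨x', rfl⟩
    obtain ⟨z, hz⟩ := X.range_sub δ γ hγ hδ x x'
    exact ⟨z, by rw [hz, sub_eq_add_neg]⟩
  exact ⟨AddSubgroup.ofSub (Set.range (X.tau δ γ)) hne hsub, fun w => Iff.rfl⟩

/-- additivity of the translation vectors. -/
lemma tau_sum {ι : Type} (D : Finset ι) (δ : ι → ZMod N → ZMod 9) (γ : ι → K) (x : ZMod N → K) :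
    ∑ i ∈ D, X.tau (δ i) (γ i) x = X.tau (fun j => ∑ i ∈ D, δ i j) (∑ i ∈ D, γ i) x := by
  funext j
  rw [Finset.sum_apply]
  simp only [tau]
  rw [Finset.sum_add_distrib, Finset.sum_smul, Finset.sum_mul, map_sum]

end Ext

end Tile

end Run7.h295
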