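import Mathlib
import Pool.Agent.Run7.h295.Tile
import Pool.Agent.Run7.h295.Comb

set_option autoImplicit false
set_option linter.unusedSectionVars false

namespace Run7.h295

open Finset

/-- index type of the coordinates of the field. -/
abbrev Idx := Fin 8 ⊕ (Blk ⊕ Unit)

/-- the field with `3 ^ 23` elements. -/
noncomputable abbrev KK : Type := GaloisField 3 23

noncomputable instance : Fintype KK := Fintype.ofFinite KK

lemma card_KK : Fintype.card KK = 3 ^ 23 := by
  rw [← Nat.card_eq_fintype_card]
  exact GaloisField.card 3 23 (by norm_num)

/-- coordinates on the field. -/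
noncomputable def ee : KK ≃ₗ[ZMod 3] (Idx → ZMod 3) :=
  LinearEquiv.ofFinrankEq KK (Idx → ZMod 3) (by
    rw [GaloisField.finrank 3 (by norm_num), Module.finrank_fintype_fun_eq_card]
    rfl)

/-- three times the digit. -/
def lift3 (a : ZMod 3) : ZMod 9 := 3 * (a.val : ZMod 9)

/-- the digit. -/
def lift1 (a : ZMod 3) : ZMod 9 := (a.val : ZMod 9)

/-- reduction modulo three. -/
def red9 : ZMod 9 →+* ZMod 3 := ZMod.castHom (show 3 ∣ 9 by norm_num) (ZMod 3)

lemma lift3_add : ∀ a b : ZMod 3, lift3 (a + b) = lift3 a + lift3 b := by decide
lemma lift3_zero : lift3 0 = 0 := by decide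
lemma lift3_inj : ∀ a b : ZMod 3, lift3 a = lift3 b → a = b := by decide
lemma red9_lift1 : ∀ a : ZMod 3, red9 (lift1 a) = a := by decide
lemma red9_lift3 : ∀ a : ZMod 3, red9 (lift3 a) = 0 := by decide
lemma red9_ker : ∀ a : ZMod 9, red9 a = 0 → ∃ b : ZMod 3, a = lift3 b := by decide
lemma three_mul9 : ∀ a : ZMod 9, 3 * a = lift3 (red9 a) := by decide
lemma two_inj : ∀ a b : ZMod 3, a + a = b + b → a = b := by decide

/-- the concrete extension. -/
noncomputable def XX : Ext KK (Idx → ZMod 9) where
  red :=
    { toFun := fun w => ee.symm (fun i => red9 (w i))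
      map_zero' := by
        have : (fun i : Idx => red9 ((0 : Idx → ZMod 9) i)) = 0 := by
          funext i; simp
        rw [this, map_zero]
      map_add' := by
        intro w w'
        rw [← map_add]
        congr 1
        funext i
        simp }
  up :=
    { toFun := fun k i => lift3 (ee k i)
      map_zero' := by
        funext i
        simp [lift3_zero]
      map_add' := by
        intro k k'
        funext i
        simp [lift3_add] }
  s := fun k i => lift1 (ee k i)
  red_s := by
    intro x
    show ee.symm (fun i => red9 (lift1 (ee x i))) = x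
    have : (fun i => red9 (lift1 (ee x i))) = ee x := by
      funext i
      exact red9_lift1 _
    rw [this, LinearEquiv.symm_apply_apply]
  ker := by
    intro w hw
    have hw' : ee.symm (fun i => red9 (w i)) = 0 := hw
    have h1 : (fun i => red9 (w i)) = 0 := by
      have := congrArg ee hw'
      simpa using this
    have h2 : ∀ i, ∃ b : ZMod 3, w i = lift3 b := fun i => red9_ker _ (congrFun h1 i)
    choose b hb using h2
    refine ⟨ee.symm b, ?_⟩
    funext i
    show w i = lift3 (ee (ee.symm b) i)
    rw [LinearEquiv.apply_symm_apply, hb]
  up_inj := by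
    intro k k' h
    apply ee.injective
    funext i
    exact lift3_inj _ _ (congrFun h i)
  red_up := by
    intro k
    show ee.symm (fun i => red9 (lift3 (ee k i))) = 0
    have : (fun i => red9 (lift3 (ee k i))) = 0 := by
      funext i
      exact red9_lift3 _
    rw [this, map_zero]
  three := by
    intro w
    funext i
    show 3 * w i = lift3 (ee (ee.symm (fun i => red9 (w i))) i)
    rw [LinearEquiv.apply_symm_apply]
    exact three_mul9 _
  card := by
    rw [card_KK, Fintype.card_fun, ZMod.card]
    have : Fintype.card Idx = 23 := rfl
    rw [this]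
    norm_num
  two := by
    intro u v h
    apply ee.injective
    funext i
    have := congrArg (fun x => ee x i) h
    simp only [map_add, Pi.add_apply] at this
    exact two_inj _ _ this

end Run7.h295
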