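import Mathlib

set_option autoImplicit false

namespace Run7.h295

open Finset

/-- A matroid from a rank function satisfying local axioms. -/
theorem exists_matroid_of_rank {Q : Type} [Fintype Q] [DecidableEq Q] (r : Finset Q → ℕ)
    (h0 : r ∅ = 0) (hmono : ∀ X i, r X ≤ r (insert i X)) (hstep : ∀ X i, r (insert i X) ≤ r X + 1)
    (hcl : ∀ X Y i, X ⊆ Y → r (insert i X) = r X → r (insert i Y) = r Y) :
    ∃ M : Matroid Q, M.E = Set.univ ∧ ∀ X : Finset Q, (M.eRk (X : Set Q)).toNat = r X := by
  have hU : ∀ (S X : Finset Q), r X ≤ r (S ∪ X) ∧ r (S ∪ X) ≤ r X + S.card := by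
    intro S X
    induction S using Finset.induction_on with
    | empty => simp
    | insert a s ha ih =>
      rw [Finset.insert_union, Finset.card_insert_of_notMem ha]
      have h3 := hmono (s ∪ X) a
      have h4 := hstep (s ∪ X) a
      omega
  have hle : ∀ X Y : Finset Q, X ⊆ Y → r X ≤ r Y := by
    intro X Y h
    have h3 := (hU Y X).1
    rwa [Finset.union_eq_left.2 h] at h3
  have hcard : ∀ X : Finset Q, r X ≤ X.card := by
    intro X
    have h3 := (hU X ∅).2
    simp only [Finset.union_empty, h0, zero_add] at h3
    exact h3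
  have hclosure : ∀ (I S : Finset Q), (∀ e ∈ S, r (insert e I) = r I) → r (S ∪ I) = r I := by
    intro I S
    induction S using Finset.induction_on with
    | empty => simp
    | insert a s ha ih =>
      intro h
      have h3 : r (s ∪ I) = r I := ih (fun e he => h e (Finset.mem_insert_of_mem he))
      rw [Finset.insert_union, hcl I (s ∪ I) a Finset.subset_union_right (h a (Finset.mem_insert_self _ _)), h3]
  have ax0 : r ∅ = (∅ : Finset Q).card := by simp [h0]
  have ax1 : ∀ ⦃I J : Finset Q⦄, r J = J.card → I ⊆ J → r I = I.card := by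
    intro I J hJ hIJ
    have h3 := (hU (J \ I) I).2
    rw [Finset.sdiff_union_of_subset hIJ, Finset.card_sdiff_of_subset hIJ] at h3
    have h4 := hcard I
    have h5 := Finset.card_le_card hIJ
    omega
  have ax2 : ∀ ⦃I J : Finset Q⦄, r I = I.card → r J = J.card → I.card < J.card →
      ∃ e ∈ J, e ∉ I ∧ r (insert e I) = (insert e I).card := by
    intro I J hI hJ hIJ
    by_contra hcon
    push Not at hcon
    have h3 : ∀ e ∈ J, r (insert e I) = r I := by
      intro e he
      by_cases heI : e ∈ I
      · rw [Finset.insert_eq_of_mem heI]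
      · have h4 := hcon e he heI
        rw [Finset.card_insert_of_notMem heI] at h4
        have h5 := hmono I e
        have h6 := hstep I e
        omega
    have h4 := hclosure I J h3
    have h5 := hle J (J ∪ I) Finset.subset_union_left
    omega
  let IM : IndepMatroid Q := IndepMatroid.ofFinset (Set.univ : Set Q)
    (fun I => r I = I.card) ax0 ax1 ax2 (fun I _ => Set.subset_univ _)
  let M : Matroid Q := IM.matroid
  have hind : ∀ I : Finset Q, M.Indep (I : Set Q) ↔ r I = I.card := by
    intro I
    exact IndepMatroid.ofFinset_indep (Set.univ : Set Q)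
      (fun I => r I = I.card) ax0 ax1 ax2 (fun I _ => Set.subset_univ _)
  refine ⟨M, rfl, ?_⟩
  intro X
  obtain ⟨I, hI⟩ := M.exists_isBasis' (X : Set Q)
  have hIX : I ⊆ (X : Set Q) := hI.subset
  have hfin : I.Finite := X.finite_toSet.subset hIX
  obtain ⟨I', rfl⟩ : ∃ I' : Finset Q, (I' : Set Q) = I := ⟨hfin.toFinset, by simp⟩
  rw [hI.eRk_eq_encard, Set.encard_coe_eq_coe_finsetCard]
  have h3 : r I' = I'.card := (hind I').1 hI.indep
  have h4 : r (X ∪ I') = r I' := by
    apply hclosure
    intro e he
    by_cases heI : e ∈ I'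
    · rw [Finset.insert_eq_of_mem heI]
    · have h5 : ¬ M.Indep (insert e (I' : Set Q)) := by
        intro hcon
        have h6 := hI.insert_not_indep (e := e) ⟨by exact_mod_cast he, by exact_mod_cast heI⟩
        exact h6 hcon
      rw [← Finset.coe_insert, hind, Finset.card_insert_of_notMem heI] at h5
      have h7 := hmono I' e
      have h8 := hstep I' e
      omega
  have h5 : I' ⊆ X := by exact_mod_cast hIX
  rw [Finset.union_eq_left.2 h5] at h4
  rw [h4, h3]
  rfl

section Unif

variable {Q E : Type} [Fintype Q] [DecidableEq Q] [Fintype E] [Nonempty E] (π : Q → E → ℕ)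

/-- the fibre of the point `e` for the variables in `X`. -/
def fib (X : Finset Q) (e : E) : Finset E :=
  Finset.univ.filter (fun e' => ∀ i ∈ X, π i e' = π i e)

omit [Nonempty E] in
variable {π} in
lemma mem_fib {X : Finset Q} {e e' : E} : e' ∈ fib π X e ↔ ∀ i ∈ X, π i e' = π i e := by
  simp [fib]

/-- A matroid from a uniform scheme. -/
theorem exists_matroid_of_uniform (q : ℕ) (hq : 2 ≤ q) (r : Finset Q → ℕ)
    (h : ∀ X e, (fib π X e).card * q ^ r X = Fintype.card E) (h1 : ∀ i, r {i} ≤ 1) :
    ∃ M : Matroid Q, M.E = Set.univ ∧ ∀ X : Finset Q, (M.eRk (X : Set Q)).toNat = r X := by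
  classical
  have hE : 0 < Fintype.card E := Fintype.card_pos
  have hpos : ∀ X e, 0 < (fib π X e).card := by
    intro X e
    exact Finset.card_pos.2 ⟨e, mem_fib.2 (fun _ _ => rfl)⟩
  have hq0 : 0 < q := by omega
  have hmono' : ∀ X Y : Finset Q, X ⊆ Y → ∀ e, fib π Y e ⊆ fib π X e := by
    intro X Y hXY e e' he'
    rw [mem_fib] at he' ⊢
    exact fun i hi => he' i (hXY hi)
  let e0 : E := Classical.arbitrary E
  have h0 : r ∅ = 0 := by
    have h2 := h ∅ e0
    have h3 : fib π ∅ e0 = Finset.univ := by
      ext e; simp [mem_fib]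
    rw [h3, Finset.card_univ] at h2
    have h4 : q ^ r ∅ = 1 := Nat.eq_of_mul_eq_mul_left hE (by rw [h2, mul_one])
    rcases Nat.eq_zero_or_pos (r ∅) with h5 | h5
    · exact h5
    · have : 1 < q ^ r ∅ := Nat.one_lt_pow (by omega) (by omega)
      omega
  have hmono : ∀ X Y : Finset Q, X ⊆ Y → r X ≤ r Y := by
    intro X Y hXY
    have h2 := h X e0
    have h3 := h Y e0
    have h4 := Finset.card_le_card (hmono' X Y hXY e0)
    by_contra hcon
    push Not at hcon
    have h5 : q ^ r Y < q ^ r X := Nat.pow_lt_pow_right (by omega) hcon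
    have h6 : (fib π Y e0).card * q ^ r Y < (fib π X e0).card * q ^ r X := by
      calc (fib π Y e0).card * q ^ r Y ≤ (fib π X e0).card * q ^ r Y := Nat.mul_le_mul_right _ h4
        _ < (fib π X e0).card * q ^ r X := Nat.mul_lt_mul_of_pos_left h5 (hpos X e0)
    omega
  -- counting of values
  have hcount : ∀ (X : Finset Q) (i : Q) (e : E),
      q ^ r (insert i X) = ((fib π X e).image (π i)).card * q ^ r X := by
    intro X i e
    have h2 : (fib π X e).card = ∑ v ∈ (fib π X e).image (π i), ((fib π X e).filter (fun e' => π i e' = v)).card :=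
      Finset.card_eq_sum_card_image (π i) (fib π X e)
    have h3 : ∀ v ∈ (fib π X e).image (π i),
        ((fib π X e).filter (fun e' => π i e' = v)).card * q ^ r (insert i X) = Fintype.card E := by
      intro v hv
      obtain ⟨e', he', rfl⟩ := Finset.mem_image.1 hv
      have h4 : (fib π X e).filter (fun e'' => π i e'' = π i e') = fib π (insert i X) e' := by
        ext e''
        rw [Finset.mem_filter, mem_fib, mem_fib]
        rw [mem_fib] at he'
        constructor
        · rintro ⟨h5, h6⟩ k hk
          rcases Finset.mem_insert.1 hk with rfl | hk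
          · exact h6
          · rw [h5 k hk, he' k hk]
        · intro h5
          refine ⟨fun k hk => ?_, h5 i (Finset.mem_insert_self _ _)⟩
          rw [h5 k (Finset.mem_insert_of_mem hk), he' k hk]
      rw [h4, h]
    have h5 : (fib π X e).card * q ^ r (insert i X) = ((fib π X e).image (π i)).card * Fintype.card E := by
      rw [h2, Finset.sum_mul, Finset.sum_congr rfl h3, Finset.sum_const, smul_eq_mul]
    rw [← h X e] at h5
    have h6 : (fib π X e).card * q ^ r (insert i X) = (fib π X e).card * (((fib π X e).image (π i)).card * q ^ r X) := by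
      rw [h5]; ring
    exact Nat.eq_of_mul_eq_mul_left (hpos X e) h6
  have himage : ∀ i, (Finset.univ.image (π i)).card ≤ q := by
    intro i
    have h2 := hcount ∅ i e0
    have h3 : fib π ∅ e0 = Finset.univ := by
      ext e; simp [mem_fib]
    rw [h3, h0, pow_zero, mul_one] at h2
    rw [← h2]
    have h4 : r (insert i ∅) ≤ 1 := by simpa using h1 i
    calc q ^ r (insert i ∅) ≤ q ^ 1 := Nat.pow_le_pow_right hq0 h4
      _ = q := pow_one q
  apply exists_matroid_of_rank r h0
  · intro X i
    exact hmono _ _ (Finset.subset_insert _ _)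
  · intro X i
    have h2 := hcount X i e0
    have h3 : ((fib π X e0).image (π i)).card ≤ q :=
      (Finset.card_le_card (Finset.image_subset_image (Finset.subset_univ _))).trans (himage i)
    by_contra hcon
    push Not at hcon
    have h4 : q ^ (r X + 1) < q ^ r (insert i X) := Nat.pow_lt_pow_right (by omega) hcon
    have h5 : q ^ r (insert i X) ≤ q * q ^ r X := by
      rw [h2]; exact Nat.mul_le_mul_right _ h3
    rw [pow_succ] at h4
    have : q ^ r X * q = q * q ^ r X := by ring
    omega
  · intro X Y i hXY hX
    have h2 : fib π (insert i X) e0 = fib π X e0 := by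
      apply Finset.eq_of_subset_of_card_le (hmono' _ _ (Finset.subset_insert _ _) _)
      have h3 := h X e0
      have h4 := h (insert i X) e0
      rw [hX] at h4
      have : (fib π X e0).card = (fib π (insert i X) e0).card :=
        Nat.eq_of_mul_eq_mul_right (pow_pos hq0 (r X)) (by rw [h3, h4])
      omega
    have h3 : fib π (insert i Y) e0 = fib π Y e0 := by
      apply Finset.Subset.antisymm (hmono' _ _ (Finset.subset_insert _ _) _)
      intro e' he'
      have h4 : e' ∈ fib π (insert i X) e0 := by rw [h2]; exact hmono' X Y hXY e0 he'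
      rw [mem_fib] at he' h4 ⊢
      intro k hk
      rcases Finset.mem_insert.1 hk with rfl | hk
      · exact h4 k (Finset.mem_insert_self _ _)
      · exact he' k hk
    have h4 := h Y e0
    have h5 := h (insert i Y) e0
    rw [h3, ← h4] at h5
    have h6 : q ^ r (insert i Y) = q ^ r Y := Nat.eq_of_mul_eq_mul_left (hpos Y e0) h5
    exact Nat.pow_right_injective hq h6

end Unif

end Run7.h295
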