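import Mathlib
import Pool.Agent.Run7.h295.RankMat

set_option autoImplicit false
set_option linter.unusedSectionVars false

namespace Run7.h295

open Finset

/-- The entropies of a uniform scheme. -/
theorem entropy_of_uniform {Q E : Type} [Fintype Q] [DecidableEq Q] [Fintype E] [Nonempty E]
    (π : Q → E → ℕ) (q : ℕ) (hq : 2 ≤ q) (r : Finset Q → ℕ)
    (h : ∀ X e, (fib π X e).card * q ^ r X = Fintype.card E) :
    ∃ (m : ℕ) (p : Fin m → ℝ) (π' : Q → Fin m → ℕ), (∀ x, 0 ≤ p x) ∧ (∑ x, p x = 1) ∧
      ∀ X : Finset Q, -∑ x : Fin m, p x * Real.log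
              (∑ y ∈ Finset.univ.filter (fun y => ∀ i ∈ X, π' i y = π' i x), p y)
          = (r X : ℝ) * Real.log q := by
  classical
  have hE : 0 < Fintype.card E := Fintype.card_pos
  have hm : (0 : ℝ) < Fintype.card E := by exact_mod_cast hE
  have hq0 : (0 : ℝ) < q := by
    have : 0 < q := by omega
    exact_mod_cast this
  refine ⟨Fintype.card E, fun _ => (Fintype.card E : ℝ)⁻¹,
    fun i x => π i ((Fintype.equivFin E).symm x), fun _ => by positivity, ?_, ?_⟩
  · rw [Finset.sum_const, Finset.card_univ, Fintype.card_fin, nsmul_eq_mul]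
    exact mul_inv_cancel₀ hm.ne'
  · intro X
    have h1 : ∀ x : Fin (Fintype.card E),
        (∑ y ∈ Finset.univ.filter (fun y : Fin (Fintype.card E) => ∀ i ∈ X,
          π i ((Fintype.equivFin E).symm y) = π i ((Fintype.equivFin E).symm x)),
          (Fintype.card E : ℝ)⁻¹) = ((q : ℝ) ^ r X)⁻¹ := by
      intro x
      rw [Finset.sum_const, nsmul_eq_mul]
      have h2 : (Finset.univ.filter (fun y : Fin (Fintype.card E) => ∀ i ∈ X,
          π i ((Fintype.equivFin E).symm y) = π i ((Fintype.equivFin E).symm x))).card
          = (fib π X ((Fintype.equivFin E).symm x)).card := by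
        apply Finset.card_bij (fun y _ => (Fintype.equivFin E).symm y)
        · intro y hy
          rw [mem_fib]
          simpa using hy
        · intro y _ y' _ hyy
          exact (Fintype.equivFin E).symm.injective hyy
        · intro e he
          rw [mem_fib] at he
          refine ⟨Fintype.equivFin E e, ?_, by simp⟩
          rw [Finset.mem_filter]
          refine ⟨Finset.mem_univ _, ?_⟩
          simpa using he
      rw [h2]
      have h3 := h X ((Fintype.equivFin E).symm x)
      have h4 : ((fib π X ((Fintype.equivFin E).symm x)).card : ℝ) * (q : ℝ) ^ r X = Fintype.card E := by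
        exact_mod_cast h3
      have h5 : (0 : ℝ) < (q : ℝ) ^ r X := by positivity
      rw [← h4]
      have h6 : ((fib π X ((Fintype.equivFin E).symm x)).card : ℝ) ≠ 0 := by
        intro h7
        rw [h7, zero_mul] at h4
        exact hm.ne h4
      field_simp
    rw [Finset.sum_congr rfl (fun x _ => by rw [h1 x])]
    rw [Finset.sum_const, Finset.card_univ, Fintype.card_fin, nsmul_eq_mul, Real.log_inv,
      Real.log_pow]
    field_simp

end Run7.h295
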