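import Mathlib

set_option autoImplicit false

namespace Run7.h295

open Finset

/-- ground set of the spike: `none` is the tip, `some (i, false)` and `some (i, true)` are the two
other elements of leg `i`. -/
abbrev GS (ι : Type) := Option (ι × Bool)

variable {ι : Type} [Fintype ι] [DecidableEq ι]

/-- the transversal selected by `D`. -/
def trans (D : Finset ι) : Finset (GS ι) :=
  Finset.univ.image (fun i => (some (i, decide (i ∈ D)) : GS ι))

lemma mem_trans (D : Finset ι) (i : ι) : (some (i, decide (i ∈ D)) : GS ι) ∈ trans D := by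
  unfold trans
  exact Finset.mem_image.2 ⟨i, Finset.mem_univ _, rfl⟩

section Lin

variable {K V : Type} [Field K] [AddCommGroup V] [Module K V] [FiniteDimensional K V]

/-- The linear obstruction. -/
theorem linear_obstruction
    (U : GS ι → Submodule K V) (ρ : Finset (GS ι) → ℕ) (d r : ℕ) (hd : 0 < d)
    (hU : ∀ X : Finset (GS ι), Module.finrank K V = Module.finrank K (↥(⨅ i ∈ X, U i)) + ρ X * d)
    (h1 : ρ {none} = 1)
    (hleg : ∀ i b, ρ {none, some (i, b)} = 2)
    (hleg' : ∀ i, ρ {none, some (i, false), some (i, true)} = 2)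
    (code : Finset ι → Prop)
    (hcode : ∀ D, code D → ρ (trans D) + 1 = r ∧ ρ (insert none (trans D)) = r)
    (hncode : ∀ D, ¬ code D → ρ (trans D) = r ∧ ρ (insert none (trans D)) = r)
    (κ : Type) [Fintype κ] (C : κ → Finset ι) (hC : ∀ k, code (C k)) (c : κ → K)
    (hempty : code ∅)
    (D : Finset ι) (hD : ¬ code D)
    (hcomb : ∀ i, ∑ k, (if i ∈ C k then c k else 0) = if i ∈ D then 1 else 0) : False := by
  classical
  -- notation
  set F : Finset (GS ι) → Submodule K V := fun X => ⨅ i ∈ X, U i with hF
  have hFU : ∀ X, Module.finrank K V = Module.finrank K (F X) + ρ X * d := hU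
  have hFle : ∀ (X : Finset (GS ι)) (e : GS ι), e ∈ X → F X ≤ U e := by
    intro X e he
    exact iInf₂_le e he
  have hFmono : ∀ X Y : Finset (GS ι), X ⊆ Y → F Y ≤ F X := by
    intro X Y h
    exact le_iInf₂ (fun e he => hFle Y e (h he))
  have hFins : ∀ (X : Finset (GS ι)) (e : GS ι), F (insert e X) = U e ⊓ F X := by
    intro X e
    simp only [hF]
    exact Finset.iInf_insert e X U
  have hFsing : ∀ e : GS ι, F {e} = U e := by
    intro e
    simp only [hF]
    simp
  have hrankU : Module.finrank K V = Module.finrank K (U none) + d := by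
    have := hFU {none}
    rw [hFsing, h1] at this
    simpa using this
  -- the legs
  have hsame : ∀ (X Y : Finset (GS ι)), X ⊆ Y → ρ X = ρ Y → F Y = F X := by
    intro X Y h h'
    apply Submodule.eq_of_le_of_finrank_eq (hFmono X Y h)
    have h3 := hFU X
    have h4 := hFU Y
    rw [h'] at h3
    omega
  have hlegXY : ∀ i (b b' : Bool), U none ⊓ U (some (i, b)) ≤ U (some (i, b')) := by
    intro i b b'
    have h3 : ({none, some (i, b)} : Finset (GS ι)) ⊆ {none, some (i, false), some (i, true)} := by
      intro x hx
      simp only [Finset.mem_insert, Finset.mem_singleton] at hx ⊢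
      rcases hx with rfl | rfl
      · simp
      · cases b <;> simp
    have h4 := hsame _ _ h3 (by rw [hleg, hleg'])
    have h5 : F {none, some (i, b)} = U none ⊓ U (some (i, b)) := by
      rw [hFins, hFsing]
    rw [← h5, ← h4]
    apply hFle
    cases b' <;> simp
  -- non codewords
  have hnc : F (trans D) ≤ U none := by
    obtain ⟨h3, h4⟩ := hncode D hD
    have h5 := hsame (trans D) (insert none (trans D)) (Finset.subset_insert _ _) (by rw [h3, h4])
    rw [← h5]
    exact hFle _ _ (Finset.mem_insert_self _ _)
  -- codewords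
  have hc : ∀ B, code B → F (trans B) ⊔ U none = ⊤ := by
    intro B hB
    obtain ⟨h3, h4⟩ := hcode B hB
    apply Submodule.eq_top_of_finrank_eq
    have h5 := Submodule.finrank_sup_add_finrank_inf_eq (F (trans B)) (U none)
    have h6 : F (trans B) ⊓ U none = F (insert none (trans B)) := by
      rw [hFins, inf_comm]
    rw [h6] at h5
    have h7 := hFU (trans B)
    have h8 := hFU (insert none (trans B))
    rw [h4] at h8
    have h9 : r * d = ρ (trans B) * d + d := by rw [← h3]; ring
    have h10 := Submodule.finrank_le (F (trans B) ⊔ U none)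
    omega
  -- choose u0
  have hUne : U none ≠ ⊤ := by
    intro h
    rw [h] at hrankU
    simp at hrankU
    omega
  obtain ⟨u, hu⟩ : ∃ u, u ∉ U none := by
    by_contra hcon
    push Not at hcon
    exact hUne (eq_top_iff.2 (fun x _ => hcon x))
  obtain ⟨u0, hu0, b0, hb0, hub⟩ : ∃ a ∈ F (trans (∅ : Finset ι)), ∃ b ∈ U none, a + b = u := by
    have : u ∈ F (trans (∅ : Finset ι)) ⊔ U none := by rw [hc ∅ hempty]; trivial
    exact Submodule.mem_sup.1 this
  have hu0' : u0 ∉ U none := by
    intro h
    exact hu (hub ▸ (U none).add_mem h hb0)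
  have hw : ∀ k, ∃ w ∈ U none, u0 + w ∈ F (trans (C k)) := by
    intro k
    have : u0 ∈ F (trans (C k)) ⊔ U none := by rw [hc _ (hC k)]; trivial
    obtain ⟨a, ha, b, hb, hab⟩ := Submodule.mem_sup.1 this
    refine ⟨-b, (U none).neg_mem hb, ?_⟩
    rw [← hab]
    simpa using ha
  choose w hwU hwF using hw
  set W : V := ∑ k, c k • w k with hW
  have hWU : W ∈ U none := Submodule.sum_mem _ (fun k _ => Submodule.smul_mem _ _ (hwU k))
  have hu0x : ∀ i, u0 ∈ U (some (i, false)) := by
    intro i
    have := hFle _ _ (mem_trans (∅ : Finset ι) i)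
    simpa using this hu0
  have hwk : ∀ k i, u0 + w k ∈ U (some (i, decide (i ∈ C k))) := by
    intro k i
    exact hFle _ _ (mem_trans (C k) i) (hwF k)
  have hP : ∀ i b b', ∀ v, v ∈ U none → v ∈ U (some (i, b)) → v ∈ U (some (i, b')) := by
    intro i b b' v h h'
    exact hlegXY i b b' ⟨h, h'⟩
  have hkey : ∀ i, u0 + W ∈ U (some (i, decide (i ∈ D))) := by
    intro i
    -- the quotient by P
    set P : Submodule K V := U none ⊓ U (some (i, false)) with hPdef
    have hPb : ∀ b, P ≤ U (some (i, b)) := by
      intro b
      exact hlegXY i false b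
    have hout : ∀ k, i ∉ C k → w k ∈ P := by
      intro k hk
      refine ⟨hwU k, ?_⟩
      have := hwk k i
      simp only [hk, decide_false] at this
      have h2 := Submodule.sub_mem _ this (hu0x i)
      simpa using h2
    by_cases hex : ∃ k, i ∈ C k
    · obtain ⟨k0, hk0⟩ := hex
      have hin : ∀ k, i ∈ C k → w k - w k0 ∈ P := by
        intro k hk
        have h3 := hwk k i
        have h4 := hwk k0 i
        simp only [hk, hk0, decide_true] at h3 h4
        have h5 := Submodule.sub_mem _ h3 h4
        have h6 : u0 + w k - (u0 + w k0) = w k - w k0 := by abel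
        rw [h6] at h5
        exact ⟨Submodule.sub_mem _ (hwU k) (hwU k0), hP i true false _ (Submodule.sub_mem _ (hwU k) (hwU k0)) h5⟩
      have hmain : W - (if i ∈ D then (1 : K) else 0) • w k0 ∈ P := by
        rw [← hcomb i, Finset.sum_smul, hW, ← Finset.sum_sub_distrib]
        apply Submodule.sum_mem
        intro k _
        by_cases hk : i ∈ C k
        · simp only [hk, if_true]
          rw [← smul_sub]
          exact Submodule.smul_mem _ _ (hin k hk)
        · simp only [hk, if_false, zero_smul, sub_zero]
          exact Submodule.smul_mem _ _ (hout k hk)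
      by_cases hiD : i ∈ D
      · simp only [hiD, if_true, one_smul] at hmain
        simp only [hiD, decide_true]
        have h3 := hwk k0 i
        simp only [hk0, decide_true] at h3
        have h4 := Submodule.add_mem _ h3 (hPb true hmain)
        have h6 : u0 + w k0 + (W - w k0) = u0 + W := by abel
        rwa [h6] at h4
      · simp only [hiD, if_false, zero_smul, sub_zero] at hmain
        simp only [hiD, decide_false]
        exact Submodule.add_mem _ (hu0x i) (hPb false hmain)
    · push Not at hex
      have h0 : (if i ∈ D then (1 : K) else 0) = 0 := by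
        rw [← hcomb i]
        apply Finset.sum_eq_zero
        intro k _
        simp [hex k]
      have hiD : i ∉ D := by
        intro h
        simp [h] at h0
      simp only [hiD, decide_false]
      refine Submodule.add_mem _ (hu0x i) (hPb false ?_)
      rw [hW]
      exact Submodule.sum_mem _ (fun k _ => Submodule.smul_mem _ _ (hout k (hex k)))
  have hfin : u0 + W ∈ F (trans D) := by
    simp only [hF, trans]
    rw [Submodule.mem_iInf]
    intro e
    rw [Submodule.mem_iInf]
    intro he
    obtain ⟨i, _, rfl⟩ := Finset.mem_image.1 he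
    exact hkey i
  have h3 := hnc hfin
  have h4 := Submodule.sub_mem _ h3 hWU
  have h5 : u0 + W - W = u0 := by abel
  rw [h5] at h4
  exact hu0' h4

end Lin

end Run7.h295
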