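import Mathlib
import Pool.Agent.Run7.h295.Linear
import Pool.Agent.Run7.h295.RankMat

set_option autoImplicit false
set_option linter.unusedSectionVars false

namespace Run7.h295

open Finset

section Defs

variable {ι : Type} [Fintype ι] [DecidableEq ι]

/-- legs met by `X` outside the tip. -/
def touched (X : Finset (GS ι)) : Finset ι :=
  Finset.univ.filter (fun i => (some (i, false) : GS ι) ∈ X ∨ (some (i, true) : GS ι) ∈ X)

/-- `X` determines the tip by a leg (or contains it). -/
def full (X : Finset (GS ι)) : Prop :=
  (none : GS ι) ∈ X ∨ ∃ i, (some (i, false) : GS ι) ∈ X ∧ (some (i, true) : GS ι) ∈ X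

/-- the upper part of `X`. -/
def upper (X : Finset (GS ι)) : Finset ι :=
  Finset.univ.filter (fun i => (some (i, true) : GS ι) ∈ X)

open Classical in
/-- the rank function of the spike with code `code`. -/
noncomputable def rk (code : Finset ι → Prop) (X : Finset (GS ι)) : ℕ :=
  if full X then (if touched X = Finset.univ then Fintype.card ι else (touched X).card + 1)
  else (if touched X = Finset.univ then
    (if code (upper X) then Fintype.card ι - 1 else Fintype.card ι) else (touched X).card)

lemma mem_touched {X : Finset (GS ι)} {i : ι} :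
    i ∈ touched X ↔ ((some (i, false) : GS ι) ∈ X ∨ (some (i, true) : GS ι) ∈ X) := by
  simp [touched]

lemma mem_upper {X : Finset (GS ι)} {i : ι} : i ∈ upper X ↔ (some (i, true) : GS ι) ∈ X := by
  simp [upper]

lemma mem_trans_iff {D : Finset ι} {i : ι} {b : Bool} :
    (some (i, b) : GS ι) ∈ trans D ↔ b = decide (i ∈ D) := by
  unfold trans
  rw [Finset.mem_image]
  constructor
  · rintro ⟨j, _, hj⟩
    have h := Option.some.inj hj
    have h1 : j = i := congrArg Prod.fst h
    have h2 : decide (j ∈ D) = b := congrArg Prod.snd h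
    subst h1
    exact h2.symm
  · rintro rfl
    exact ⟨i, Finset.mem_univ _, rfl⟩

lemma none_notMem_trans {D : Finset ι} : (none : GS ι) ∉ trans D := by
  unfold trans
  rw [Finset.mem_image]
  rintro ⟨j, _, hj⟩
  exact absurd hj (by simp)

lemma rk_tip (hι : 2 ≤ Fintype.card ι) (code : Finset ι → Prop) : rk code {(none : GS ι)} = 1 := by
  have h1 : full ({(none : GS ι)} : Finset (GS ι)) := Or.inl (by simp)
  have h2 : touched ({(none : GS ι)} : Finset (GS ι)) = ∅ := by
    ext i; simp [mem_touched]
  have h3 : (∅ : Finset ι) ≠ Finset.univ := by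
    intro h
    have := congrArg Finset.card h
    simp at this
    omega
  simp [rk, h1, h2, h3]

lemma touched_single (i : ι) (X : Finset (GS ι))
    (hX : ∀ j b, (some (j, b) : GS ι) ∈ X → j = i) (hi : ∃ b, (some (i, b) : GS ι) ∈ X) :
    touched X = {i} := by
  ext j
  rw [mem_touched, Finset.mem_singleton]
  constructor
  · rintro (h | h)
    · exact hX j _ h
    · exact hX j _ h
  · rintro rfl
    obtain ⟨b, hb⟩ := hi
    cases b
    · exact Or.inl hb
    · exact Or.inr hb

omit [DecidableEq ι] in
lemma single_ne_univ (hι : 2 ≤ Fintype.card ι) (i : ι) : ({i} : Finset ι) ≠ Finset.univ := by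
  intro h
  have := congrArg Finset.card h
  simp at this
  omega

lemma rk_elt (hι : 2 ≤ Fintype.card ι) (code : Finset ι → Prop) (i : ι) (b : Bool) :
    rk code {(some (i, b) : GS ι)} = 1 := by
  have h1 : ¬ full ({(some (i, b) : GS ι)} : Finset (GS ι)) := by
    rintro (h | ⟨j, h, h'⟩)
    · simp at h
    · simp only [Finset.mem_singleton, Option.some.injEq, Prod.mk.injEq] at h h'
      rw [← h.2] at h'
      exact absurd h'.2 (by simp)
  have h2 : touched ({(some (i, b) : GS ι)} : Finset (GS ι)) = {i} := by
    apply touched_single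
    · intro j c h
      simp only [Finset.mem_singleton, Option.some.injEq, Prod.mk.injEq] at h
      exact h.1
    · exact ⟨b, by simp⟩
  simp [rk, h1, h2, single_ne_univ hι]

lemma rk_leg (hι : 2 ≤ Fintype.card ι) (code : Finset ι → Prop) (i : ι) (b : Bool) :
    rk code {(none : GS ι), some (i, b)} = 2 := by
  have h1 : full ({(none : GS ι), some (i, b)} : Finset (GS ι)) := Or.inl (by simp)
  have h2 : touched ({(none : GS ι), some (i, b)} : Finset (GS ι)) = {i} := by
    apply touched_single
    · intro j c h
      simp only [Finset.mem_insert, reduceCtorEq, false_or, Finset.mem_singleton,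
        Option.some.injEq, Prod.mk.injEq] at h
      exact h.1
    · exact ⟨b, by simp⟩
  simp [rk, h1, h2, single_ne_univ hι]

lemma rk_leg' (hι : 2 ≤ Fintype.card ι) (code : Finset ι → Prop) (i : ι) :
    rk code {(none : GS ι), some (i, false), some (i, true)} = 2 := by
  have h1 : full ({(none : GS ι), some (i, false), some (i, true)} : Finset (GS ι)) := Or.inl (by simp)
  have h2 : touched ({(none : GS ι), some (i, false), some (i, true)} : Finset (GS ι)) = {i} := by
    apply touched_single
    · intro j c h
      simp only [Finset.mem_insert, reduceCtorEq, false_or, Finset.mem_singleton,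
        Option.some.injEq, Prod.mk.injEq] at h
      rcases h with h | h
      · exact h.1
      · exact h.1
    · exact ⟨false, by simp⟩
  simp [rk, h1, h2, single_ne_univ hι]

lemma touched_trans (D : Finset ι) : touched (trans D) = Finset.univ := by
  ext i
  simp only [mem_touched, mem_trans_iff, Finset.mem_univ, iff_true]
  by_cases h : i ∈ D <;> simp [h]

lemma touched_ins_trans (D : Finset ι) : touched (insert none (trans D)) = Finset.univ := by
  ext i
  simp only [mem_touched, Finset.mem_insert, reduceCtorEq, false_or, mem_trans_iff,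
    Finset.mem_univ, iff_true]
  by_cases h : i ∈ D <;> simp [h]

lemma upper_trans (D : Finset ι) : upper (trans D) = D := by
  ext i
  simp only [mem_upper, mem_trans_iff]
  by_cases h : i ∈ D <;> simp [h]

lemma not_full_trans (D : Finset ι) : ¬ full (trans D) := by
  rintro (h | ⟨j, h, h'⟩)
  · exact none_notMem_trans h
  · rw [mem_trans_iff] at h h'
    rw [← h] at h'
    exact absurd h' (by simp)

lemma rk_trans_code (code : Finset ι → Prop) (D : Finset ι) (hD : code D) :
    rk code (trans D) = Fintype.card ι - 1 := by
  simp [rk, not_full_trans, touched_trans, upper_trans, hD]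

lemma rk_trans_ncode (code : Finset ι → Prop) (D : Finset ι) (hD : ¬ code D) :
    rk code (trans D) = Fintype.card ι := by
  simp [rk, not_full_trans, touched_trans, upper_trans, hD]

lemma rk_ins_trans (code : Finset ι → Prop) (D : Finset ι) :
    rk code (insert none (trans D)) = Fintype.card ι := by
  have h1 : full (insert (none : GS ι) (trans D)) := Or.inl (Finset.mem_insert_self _ _)
  simp [rk, h1, touched_ins_trans]

lemma rk_empty (hι : 2 ≤ Fintype.card ι) (code : Finset ι → Prop) :
    rk code (∅ : Finset (GS ι)) = 0 := by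
  have h1 : ¬ full (∅ : Finset (GS ι)) := by
    rintro (h | ⟨j, h, h'⟩)
    · simp at h
    · simp at h
  have h2 : touched (∅ : Finset (GS ι)) = ∅ := by
    ext i; simp [mem_touched]
  have h3 : (∅ : Finset ι) ≠ Finset.univ := by
    intro h
    have := congrArg Finset.card h
    simp at this
    omega
  simp [rk, h1, h2, h3]

end Defs

section Scheme

variable {ι O T : Type} [Fintype ι] [DecidableEq ι] [AddCommGroup O] [Fintype O] [DecidableEq O]
  [Fintype T] [DecidableEq T] [Nonempty T]
  (τ : ι → T → O) (H : ι → AddSubgroup O) (R : Set O)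

/-- the relation satisfied by the lower elements of the legs. -/
def Rel : Type := {x : ι → O // (∀ i, x i ∈ H i) ∧ ∑ i, x i ∈ R}

noncomputable instance : Fintype (Rel H R) := by
  classical
  unfold Rel
  infer_instance

/-- the shares. -/
def share : GS ι → T × Rel H R → T ⊕ O
  | none, e => Sum.inl e.1
  | some (i, false), e => Sum.inr (e.2.1 i)
  | some (i, true), e => Sum.inr (e.2.1 i + τ i e.1)

/-- the shares as natural numbers. -/
noncomputable def shareN (j : GS ι) (e : T × Rel H R) : ℕ :=
  (Fintype.equivFin (T ⊕ O) (share τ H R j e)).val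

omit [DecidableEq ι] [DecidableEq O] [DecidableEq T] [Nonempty T] in
lemma shareN_eq (j : GS ι) (e e' : T × Rel H R) :
    shareN τ H R j e = shareN τ H R j e' ↔ share τ H R j e = share τ H R j e' := by
  unfold shareN
  constructor
  · intro h
    exact (Fintype.equivFin (T ⊕ O)).injective (Fin.ext h)
  · intro h
    rw [h]

open Classical in
/-- points of the relation with prescribed coordinates in `I`. -/
noncomputable def presc (I : Finset ι) (a : ι → O) : Finset (ι → O) :=
  Finset.univ.filter (fun x => ((∀ i, x i ∈ H i) ∧ ∑ i, x i ∈ R) ∧ ∀ i ∈ I, x i = a i)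

variable {τ H R}

open Classical in
lemma card_presc (hsurj : ∀ i, ∀ h ∈ H i, ∃ t, τ i t = h) (hτH : ∀ i t, τ i t ∈ H i)
    (hsing : ∀ i z, ∃! t, z - τ i t ∈ R)
    (I : Finset ι) (hI : I ≠ Finset.univ) (a : ι → O) (ha : ∀ i ∈ I, a i ∈ H i) :
    (presc H R I a).card * (Fintype.card T) ^ (I.card + 1) = (Fintype.card T) ^ (Fintype.card ι) := by
  obtain ⟨k, hk⟩ : ∃ k, k ∉ I := by
    by_contra hcon
    push Not at hcon
    exact hI (Finset.eq_univ_iff_forall.2 hcon)
  have hinj : ∀ i, Function.Injective (τ i) := by
    intro i t t' h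
    obtain ⟨t0, ht0, ht0'⟩ := hsing i (τ i t)
    -- use a shift
    obtain ⟨s, hs, hs'⟩ := hsing i 0
    obtain ⟨u, hu, hu'⟩ := hsing i (τ i t - τ i s)
    -- both t and t' are solutions of the same equation
    have h1 : τ i t - τ i s - τ i t ∈ R := by
      have : τ i t - τ i s - τ i t = 0 - τ i s := by abel
      rw [this]; exact hs
    have h2 : τ i t - τ i s - τ i t' ∈ R := by rw [← h]; exact h1
    rw [hu' t h1, hu' t' h2]
  have hcomp : ∀ z, ∃ h ∈ H k, z + h ∈ R ∧ ∀ h' ∈ H k, z + h' ∈ R → h' = h := by
    intro z
    obtain ⟨t, ht, ht'⟩ := hsing k z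
    refine ⟨-τ k t, (H k).neg_mem (hτH k t), by rw [← sub_eq_add_neg]; exact ht, ?_⟩
    intro h' hh' hz
    obtain ⟨t', ht''⟩ := hsurj k (-h') ((H k).neg_mem hh')
    have h3 : z - τ k t' ∈ R := by rw [ht'', sub_neg_eq_add]; exact hz
    have h4 := ht' t' h3
    rw [← h4, ht'', neg_neg]
  have hHcard : ∀ i, (Finset.univ.filter (fun o => o ∈ H i)).card = Fintype.card T := by
    intro i
    rw [← Finset.card_univ (α := T)]
    symm
    apply Finset.card_bij (fun t _ => τ i t)
    · intro t _
      simp [hτH]
    · intro t _ t' _ h
      exact hinj i h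
    · intro o ho
      obtain ⟨t, ht⟩ := hsurj i o (by simpa using ho)
      exact ⟨t, Finset.mem_univ _, ht⟩
  set B : Finset (ι → O) := Fintype.piFinset (fun i => if i ∈ I then {a i} else
    if i = k then {0} else Finset.univ.filter (fun o => o ∈ H i)) with hB
  have hmemB : ∀ y, y ∈ B ↔ (∀ i ∈ I, y i = a i) ∧ y k = 0 ∧ ∀ i, y i ∈ H i := by
    intro y
    rw [hB, Fintype.mem_piFinset]
    constructor
    · intro h
      refine ⟨fun i hi => ?_, ?_, fun i => ?_⟩
      · have := h i
        simpa [hi] using this
      · have := h k
        simpa [hk] using this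
      · have := h i
        by_cases hi : i ∈ I
        · simp only [hi, if_true, Finset.mem_singleton] at this
          rw [this]; exact ha i hi
        · by_cases hik : i = k
          · subst hik
            simp only [hi, if_false, if_true, Finset.mem_singleton] at this
            rw [this]; exact (H i).zero_mem
          · simpa [hi, hik] using this
    · rintro ⟨h1, h2, h3⟩ i
      by_cases hi : i ∈ I
      · simp [hi, h1 i hi]
      · by_cases hik : i = k
        · subst hik
          simp [hi, h2]
        · simp [hi, hik, h3 i]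
  have hcardB : B.card * (Fintype.card T) ^ (I.card + 1) = (Fintype.card T) ^ (Fintype.card ι) := by
    rw [hB, Fintype.card_piFinset]
    have h1 : ∀ i, (if i ∈ I then ({a i} : Finset O) else
        if i = k then {0} else Finset.univ.filter (fun o => o ∈ H i)).card
        = if i ∈ insert k I then 1 else Fintype.card T := by
      intro i
      by_cases hi : i ∈ I
      · simp [hi]
      · by_cases hik : i = k
        · subst hik; simp [hi]
        · simp only [hi, hik, if_false, Finset.mem_insert, or_self]
          exact hHcard i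
    rw [Finset.prod_congr rfl (fun i _ => h1 i), Finset.prod_ite, Finset.prod_const_one, one_mul,
      Finset.prod_const]
    have h2 : (Finset.univ.filter (fun x => x ∉ insert k I)).card + (I.card + 1) = Fintype.card ι := by
      rw [← Finset.card_insert_of_notMem hk]
      have h3 : (Finset.univ.filter (fun x => x ∉ insert k I)) = (insert k I)ᶜ := by
        ext x; simp
      rw [h3, Finset.card_compl]
      have := Finset.card_le_univ (insert k I)
      omega
    rw [← pow_add, h2]
  have hAB : (presc H R I a).card = B.card := by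
    apply Finset.card_bij (fun x _ => Function.update x k 0)
    · intro x hx
      simp only [presc, Finset.mem_filter, Finset.mem_univ, true_and] at hx
      rw [hmemB]
      refine ⟨fun i hi => ?_, by simp, fun i => ?_⟩
      · have : i ≠ k := fun h => hk (h ▸ hi)
        rw [Function.update_of_ne this]
        exact hx.2 i hi
      · by_cases h : i = k
        · subst h; simp [(H i).zero_mem]
        · rw [Function.update_of_ne h]; exact hx.1.1 i
    · intro x hx x' hx' h
      simp only [presc, Finset.mem_filter, Finset.mem_univ, true_and] at hx hx'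
      have h1 : ∀ i, i ≠ k → x i = x' i := by
        intro i hi
        have := congrFun h i
        simpa [Function.update_of_ne hi] using this
      have h2 : ∀ y : ι → O, ∑ i, y i = (∑ i, Function.update y k 0 i) + y k := by
        intro y
        rw [Finset.sum_update_of_mem (Finset.mem_univ k), zero_add]
        rw [← Finset.sum_sdiff (Finset.subset_univ {k})]
        simp
      obtain ⟨h0, _, _, hu⟩ := hcomp (∑ i, Function.update x k 0 i)
      have h3 : x k = h0 := hu _ (hx.1.1 k) (by rw [← h2]; exact hx.1.2)
      have h4 : x' k = h0 := hu _ (hx'.1.1 k) (by rw [h, ← h2]; exact hx'.1.2)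
      funext i
      by_cases hi : i = k
      · subst hi; rw [h3, h4]
      · exact h1 i hi
    · intro y hy
      rw [hmemB] at hy
      obtain ⟨h1, h2, h3⟩ := hy
      obtain ⟨h0, hh0, hR, _⟩ := hcomp (∑ i, y i)
      refine ⟨Function.update y k h0, ?_, ?_⟩
      · simp only [presc, Finset.mem_filter, Finset.mem_univ, true_and]
        refine ⟨⟨fun i => ?_, ?_⟩, fun i hi => ?_⟩
        · by_cases h : i = k
          · subst h; simpa using hh0
          · rw [Function.update_of_ne h]; exact h3 i
        · have h4 : ∑ i, Function.update y k h0 i = (∑ i, y i) + h0 := by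
            rw [Finset.sum_update_of_mem (Finset.mem_univ k)]
            have h5 : ∑ i, y i = ∑ i ∈ Finset.univ \ {k}, y i := by
              rw [← Finset.sum_sdiff (Finset.subset_univ {k})]
              simp [h2]
            rw [h5]; abel
          rw [h4]; exact hR
        · have : i ≠ k := fun h => hk (h ▸ hi)
          rw [Function.update_of_ne this]
          exact h1 i hi
      · simp only [Function.update_idem]
        funext i
        by_cases h : i = k
        · subst h; simp [h2]
        · rw [Function.update_of_ne h]
  rw [hAB]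
  exact hcardB

open Classical in
/-- the points of the relation agreeing with `e` when the tip is `t'`. -/
noncomputable def agr (τ : ι → T → O) (H : ι → AddSubgroup O) (R : Set O)
    (X : Finset (GS ι)) (e : T × Rel H R) (t' : T) : Finset (ι → O) :=
  Finset.univ.filter (fun x => ((∀ i, x i ∈ H i) ∧ ∑ i, x i ∈ R) ∧
    ((none : GS ι) ∈ X → t' = e.1) ∧ (∀ i, (some (i, false) : GS ι) ∈ X → x i = e.2.1 i) ∧
    (∀ i, (some (i, true) : GS ι) ∈ X → x i + τ i t' = e.2.1 i + τ i e.1))

open Classical in
lemma card_fib_eq (X : Finset (GS ι)) (e : T × Rel H R) :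
    (fib (shareN τ H R) X e).card = ∑ t', (agr τ H R X e t').card := by
  unfold fib
  rw [Finset.card_filter, Fintype.sum_prod_type]
  apply Finset.sum_congr rfl
  intro t' _
  rw [← Finset.card_filter]
  apply Finset.card_bij (fun x _ => x.1)
  · intro x hx
    simp only [Finset.mem_filter, Finset.mem_univ, true_and] at hx
    simp only [agr, Finset.mem_filter, Finset.mem_univ, true_and]
    refine ⟨x.2, fun h => ?_, fun i h => ?_, fun i h => ?_⟩
    · have := (shareN_eq τ H R _ _ _).1 (hx _ h)
      simpa [share] using this
    · have := (shareN_eq τ H R _ _ _).1 (hx _ h)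
      simpa [share] using this
    · have := (shareN_eq τ H R _ _ _).1 (hx _ h)
      simpa [share] using this
  · intro x _ x' _ h
    exact Subtype.ext h
  · intro x hx
    simp only [agr, Finset.mem_filter, Finset.mem_univ, true_and] at hx
    refine ⟨⟨x, hx.1⟩, Finset.mem_filter.2 ⟨Finset.mem_univ _, ?_⟩, rfl⟩
    intro j hj
    rw [shareN_eq]
    rcases j with _ | ⟨i, b⟩
    · simp [share, hx.2.1 hj]
    · cases b
      · simp [share, hx.2.2.1 i hj]
      · simp [share, hx.2.2.2 i hj]

lemma tau_inj (hsing : ∀ i z, ∃! t, z - τ i t ∈ R) (i : ι) : Function.Injective (τ i) := by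
  intro t t' h
  obtain ⟨s, hs, _⟩ := hsing i 0
  obtain ⟨u, _, hu'⟩ := hsing i (τ i t - τ i s)
  have h1 : τ i t - τ i s - τ i t ∈ R := by
    have : τ i t - τ i s - τ i t = 0 - τ i s := by abel
    rw [this]; exact hs
  have h2 : τ i t - τ i s - τ i t' ∈ R := by rw [← h]; exact h1
  rw [hu' t h1, hu' t' h2]

open Classical in
lemma agr_full (hsing : ∀ i z, ∃! t, z - τ i t ∈ R) (X : Finset (GS ι)) (hX : full X)
    (e : T × Rel H R) (t' : T) :
    agr τ H R X e t' = if t' = e.1 then presc H R (touched X) e.2.1 else ∅ := by
  by_cases ht : t' = e.1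
  · subst ht
    simp only [if_true]
    ext x
    simp only [agr, presc, Finset.mem_filter, Finset.mem_univ, true_and, mem_touched,
      add_left_inj]
    constructor
    · rintro ⟨h1, _, h3, h4⟩
      refine ⟨h1, fun i hi => ?_⟩
      rcases hi with hi | hi
      · exact h3 i hi
      · exact h4 i hi
    · rintro ⟨h1, h2⟩
      exact ⟨h1, by simp, fun i hi => h2 i (Or.inl hi), fun i hi => h2 i (Or.inr hi)⟩
  · simp only [ht, if_false]
    rw [Finset.eq_empty_iff_forall_notMem]
    intro x hx
    simp only [agr, Finset.mem_filter, Finset.mem_univ, true_and] at hx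
    obtain ⟨_, h2, h3, h4⟩ := hx
    rcases hX with h | ⟨i, hi, hi'⟩
    · exact ht (h2 h)
    · have h5 := h3 i hi
      have h6 := h4 i hi'
      rw [h5] at h6
      exact ht (tau_inj hsing i (add_left_cancel h6))

open Classical in
/-- the prescribed values when the tip is `t'`. -/
noncomputable def shift (τ : ι → T → O) {H : ι → AddSubgroup O} {R : Set O}
    (X : Finset (GS ι)) (e : T × Rel H R) (t' : T) (i : ι) : O :=
  if (some (i, true) : GS ι) ∈ X then e.2.1 i + τ i e.1 - τ i t' else e.2.1 i

open Classical in
lemma agr_not_full (X : Finset (GS ι)) (hX : ¬ full X) (e : T × Rel H R) (t' : T) :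
    agr τ H R X e t' = presc H R (touched X) (shift τ X e t') := by
  unfold full at hX
  push Not at hX
  ext x
  simp only [agr, presc, Finset.mem_filter, Finset.mem_univ, true_and, mem_touched]
  constructor
  · rintro ⟨h1, _, h3, h4⟩
    refine ⟨h1, fun i hi => ?_⟩
    unfold shift
    by_cases hi' : (some (i, true) : GS ι) ∈ X
    · simp only [hi', if_true]
      rw [← h4 i hi']; abel
    · simp only [hi', if_false]
      rcases hi with hi | hi
      · exact h3 i hi
      · exact absurd hi hi'
  · rintro ⟨h1, h2⟩
    refine ⟨h1, fun h => absurd h hX.1, fun i hi => ?_, fun i hi => ?_⟩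
    · have h3 := h2 i (Or.inl hi)
      have h4 : (some (i, true) : GS ι) ∉ X := hX.2 i hi
      simpa [shift, h4] using h3
    · have h3 := h2 i (Or.inr hi)
      rw [h3]
      simp [shift, hi]

lemma shift_mem (hτH : ∀ i t, τ i t ∈ H i) (X : Finset (GS ι)) (e : T × Rel H R) (t' : T) (i : ι) :
    shift τ X e t' i ∈ H i := by
  unfold shift
  split_ifs
  · exact (H i).sub_mem ((H i).add_mem (e.2.2.1 i) (hτH i _)) (hτH i _)
  · exact e.2.2.1 i

lemma sum_shift (X : Finset (GS ι)) (e : T × Rel H R) (t' : T) :
    ∑ i, shift τ X e t' i = (∑ i, e.2.1 i + ∑ i ∈ upper X, τ i e.1) - ∑ i ∈ upper X, τ i t' := by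
  classical
  have h1 : ∀ s : T, ∑ i ∈ upper X, τ i s = ∑ i, if (some (i, true) : GS ι) ∈ X then τ i s else 0 := by
    intro s
    unfold upper
    rw [Finset.sum_filter]
  rw [h1, h1, ← Finset.sum_add_distrib, ← Finset.sum_sub_distrib]
  apply Finset.sum_congr rfl
  intro i _
  unfold shift
  split_ifs <;> simp

open Classical in
lemma presc_univ (a : ι → O) (ha : ∀ i, a i ∈ H i) :
    (presc H R Finset.univ a).card = if ∑ i, a i ∈ R then 1 else 0 := by
  by_cases h : ∑ i, a i ∈ R
  · simp only [h, if_true]
    rw [Finset.card_eq_one]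
    refine ⟨a, ?_⟩
    ext x
    simp only [presc, Finset.mem_filter, Finset.mem_univ, true_and, true_implies,
      Finset.mem_singleton]
    constructor
    · rintro ⟨_, h2⟩
      exact funext h2
    · rintro rfl
      exact ⟨⟨ha, h⟩, fun _ => rfl⟩
  · simp only [h, if_false]
    rw [Finset.card_eq_zero, Finset.eq_empty_iff_forall_notMem]
    intro x hx
    simp only [presc, Finset.mem_filter, Finset.mem_univ, true_and, true_implies] at hx
    have : x = a := funext hx.2
    rw [this] at hx
    exact h hx.1.2

theorem scheme_fib (hsurj : ∀ i, ∀ h ∈ H i, ∃ t, τ i t = h) (hτH : ∀ i t, τ i t ∈ H i)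
    (hsing : ∀ i z, ∃! t, z - τ i t ∈ R) (hι : 2 ≤ Fintype.card ι)
    (code : Finset ι → Prop) (hcode : ∀ D, code D → ∀ t, ∑ i ∈ D, τ i t = 0)
    (hnon : ∀ D, ¬ code D → ∀ z, ∃! t, z - ∑ i ∈ D, τ i t ∈ R)
    (X : Finset (GS ι)) (e : T × Rel H R) :
    (fib (shareN τ H R) X e).card * (Fintype.card T) ^ rk code X
      = (Fintype.card T) ^ Fintype.card ι := by
  classical
  rw [card_fib_eq]
  by_cases hX : full X
  · have h1 : ∑ t', (agr τ H R X e t').card = (presc H R (touched X) e.2.1).card := by
      rw [Finset.sum_eq_single e.1]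
      · rw [agr_full hsing X hX]; simp
      · intro t' _ ht'
        rw [agr_full hsing X hX]; simp [ht']
      · intro h; exact absurd (Finset.mem_univ _) h
    rw [h1]
    by_cases ht : touched X = Finset.univ
    · rw [ht, presc_univ _ e.2.2.1]
      simp [rk, hX, ht, e.2.2.2]
    · have := card_presc hsurj hτH hsing (touched X) ht e.2.1 (fun i _ => e.2.2.1 i)
      simpa [rk, hX, ht] using this
  · have h1 : ∀ t', agr τ H R X e t' = presc H R (touched X) (shift τ X e t') :=
      fun t' => agr_not_full X hX e t'
    by_cases ht : touched X = Finset.univ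
    · have h2 : ∀ t', (agr τ H R X e t').card = if ∑ i, shift τ X e t' i ∈ R then 1 else 0 := by
        intro t'
        rw [h1, ht, presc_univ _ (shift_mem hτH X e t')]
      rw [Finset.sum_congr rfl (fun t' _ => h2 t')]
      simp only [sum_shift]
      by_cases hc : code (upper X)
      · have h3 := hcode _ hc
        simp only [h3, add_zero, sub_zero, e.2.2.2, if_true, Finset.sum_const, smul_eq_mul,
          mul_one, Finset.card_univ]
        have h4 : rk code X = Fintype.card ι - 1 := by simp [rk, hX, ht, hc]
        rw [h4, ← pow_succ']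
        congr 1
        omega
      · obtain ⟨t0, ht0, ht0'⟩ := hnon _ hc (∑ i, e.2.1 i + ∑ i ∈ upper X, τ i e.1)
        rw [Finset.sum_eq_single t0]
        · have h4 : rk code X = Fintype.card ι := by simp [rk, hX, ht, hc]
          rw [if_pos ht0, h4, one_mul]
        · intro t' _ hne
          rw [if_neg]
          intro h
          exact hne (ht0' t' h)
        · intro h; exact absurd (Finset.mem_univ _) h
    · have h2 : ∀ t', (agr τ H R X e t').card * Fintype.card T ^ ((touched X).card + 1)
          = Fintype.card T ^ Fintype.card ι := by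
        intro t'
        rw [h1]
        exact card_presc hsurj hτH hsing (touched X) ht _ (fun i _ => shift_mem hτH X e t' i)
      have hpos : 0 < Fintype.card T := Fintype.card_pos
      have h3 : (∑ t', (agr τ H R X e t').card) * Fintype.card T ^ ((touched X).card + 1)
          = Fintype.card T * Fintype.card T ^ Fintype.card ι := by
        rw [Finset.sum_mul, Finset.sum_congr rfl (fun t' _ => h2 t'), Finset.sum_const,
          Finset.card_univ, smul_eq_mul]
      have h4 : rk code X = (touched X).card := by simp [rk, hX, ht]
      rw [h4]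
      apply Nat.eq_of_mul_eq_mul_left hpos
      rw [← h3, pow_succ]
      ring

end Scheme

end Run7.h295
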