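import Mathlib
import Pool.Agent.Run7.h295.Scheme
import Pool.Agent.Run7.h295.Tile
import Pool.Agent.Run7.h295.Comb
import Pool.Agent.Run7.h295.Conc

set_option autoImplicit false
set_option linter.unusedSectionVars false

namespace Run7.h295

open Finset

/-- the legs: two copies of every block and four further legs. -/
abbrev Leg := (Blk × Bool) ⊕ Fin 4

lemma card_Leg : Fintype.card Leg = 32 := rfl

/-- the `c`-part of a set of legs. -/
def part (D : Finset Leg) (c : Bool) : Finset Blk :=
  Finset.univ.filter (fun B => (Sum.inl (B, c) : Leg) ∈ D)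

/-- signs of the four further legs. -/
def eps (h : Fin 4) : ℤ := if h = 3 then -1 else 1

/-- the gadget class of a set of legs. -/
def bb (D : Finset Leg) : ℤ := ∑ h ∈ Finset.univ.filter (fun h => (Sum.inr h : Leg) ∈ D), eps h

lemma sum_legs {M : Type} [AddCommMonoid M] (D : Finset Leg) (F : Leg → M) :
    ∑ i ∈ D, F i = (∑ B ∈ part D false, F (Sum.inl (B, false)) + ∑ B ∈ part D true, F (Sum.inl (B, true)))
      + ∑ h ∈ Finset.univ.filter (fun h => (Sum.inr h : Leg) ∈ D), F (Sum.inr h) := by
  have h1 : ∑ i ∈ D, F i = ∑ i : Leg, if i ∈ D then F i else 0 := by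
    rw [← Finset.sum_filter]
    congr 1
    ext i; simp
  rw [h1, Fintype.sum_sum_type, Fintype.sum_prod_type]
  congr 1
  · rw [← Finset.sum_filter_add_sum_filter_not Finset.univ (fun B : Blk => B = B)]
    simp only [Fintype.sum_bool, part, Finset.sum_filter]
    simp only [if_true, not_true, if_false, Finset.sum_const_zero, add_zero]
    rw [Finset.sum_add_distrib, add_comm]
  · rw [Finset.sum_filter]

/-- the codewords. -/
def code (D : Finset Leg) : Prop :=
  part D false = part D true ∧ (∀ z, cls (part D false) z = 0) ∧ (3 : ℤ) ∣ bb D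

/-- the functionals. -/
def Fam : Type := {p : (Fin 8 → ZMod 9) × ZMod 9 // 3 * p.2 = 0 ∧ 3 * ∑ z, (vv z : ZMod 9) * p.1 z ≠ 0}

instance : Fintype Fam := by unfold Fam; infer_instance

/-- a basic functional. -/
def fam0 : Fam := ⟨(Pi.single 0 1, 0), by decide⟩

instance : Nonempty Fam := ⟨fam0⟩

/-- a cyclic alternating enumeration. -/
theorem exists_cycle (F : Type) [Finite F] [Nonempty F] :
    ∃ (N : ℕ) (_ : NeZero N) (idx : ZMod N → F) (col : ZMod N → Bool),
      (∀ j, col (j + 1) = !(col j)) ∧ (∀ p c, ∃ j, idx j = p ∧ col j = c) := by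
  obtain ⟨m, ⟨e⟩⟩ := Finite.exists_equiv_fin F
  have hm : 0 < m := by
    obtain ⟨x⟩ := (inferInstance : Nonempty F)
    exact lt_of_le_of_lt (Nat.zero_le _) (e x).isLt
  have hN : NeZero (2 * m) := ⟨by omega⟩
  refine ⟨2 * m, hN, fun j => e.symm ⟨j.val / 2, by
    have h := ZMod.val_lt j
    omega⟩, fun j => decide (j.val % 2 = 1), ?_, ?_⟩
  · intro j
    have h3 : (1 : ZMod (2 * m)).val = 1 := by
      have h4 : ((1 : ℕ) : ZMod (2 * m)).val = 1 := ZMod.val_natCast_of_lt (by omega)
      simpa using h4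
    show decide ((j + 1).val % 2 = 1) = !(decide (j.val % 2 = 1))
    rw [ZMod.val_add, h3]
    have h5 : (j.val + 1) % (2 * m) % 2 = (j.val + 1) % 2 := Nat.mod_mod_of_dvd _ ⟨m, rfl⟩
    rw [h5]
    by_cases h6 : j.val % 2 = 1
    · have h7 : (j.val + 1) % 2 = 0 := by omega
      simp [h6, h7]
    · have h7 : (j.val + 1) % 2 = 1 := by omega
      simp [h6, h7]
  · intro p c
    have hk := (e p).isLt
    set k := (e p).val with hkdef
    set n : ℕ := 2 * k + (if c then 1 else 0) with hn
    have hlt : n < 2 * m := by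
      rw [hn]
      cases c <;> simp <;> omega
    have hval : ((n : ℕ) : ZMod (2 * m)).val = n := ZMod.val_natCast_of_lt hlt
    refine ⟨((n : ℕ) : ZMod (2 * m)), ?_, ?_⟩
    · rw [Equiv.symm_apply_eq]
      apply Fin.ext
      simp only
      rw [hval, ← hkdef, hn]
      cases c <;> simp <;> omega
    · simp only
      rw [hval, hn]
      cases c
      · simp
      · simp

section Cycle

variable {N : ℕ} [NeZero N] (idx : ZMod N → Fam) (col : ZMod N → Bool)

/-- the digits of a leg. -/
noncomputable def del (i : Leg) (j : ZMod N) : ZMod 9 :=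
  match i with
  | Sum.inl (B, c) => if c = col j then ∑ z, (coefA B z : ZMod 9) * (idx j).1.1 z else 0
  | Sum.inr h => if col j = false then (idx j).1.2 * (eps h : ZMod 9) else 0

/-- the coordinates of the field element of a leg. -/
def cvec (i : Leg) : Idx → ZMod 3 :=
  match i with
  | Sum.inl (B, false) => fun k => match k with
    | Sum.inl z => (coefA B z : ZMod 3)
    | Sum.inr (Sum.inl B') => if B' = B then 1 else 0
    | Sum.inr (Sum.inr _) => 0
  | Sum.inl (B, true) => fun k => match k with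
    | Sum.inl _ => 0
    | Sum.inr (Sum.inl B') => if B' = B then -1 else 0
    | Sum.inr (Sum.inr _) => 0
  | Sum.inr h => fun k => match k with
    | Sum.inl _ => 0
    | Sum.inr (Sum.inl _) => 0
    | Sum.inr (Sum.inr _) => (eps h : ZMod 3)

/-- the field element of a leg. -/
noncomputable def gam (i : Leg) : KK := ee.symm (cvec i)

/-- sum of the digits. -/
lemma sum_del (D : Finset Leg) (j : ZMod N) :
    ∑ i ∈ D, del idx col i j = if col j = false then
      (∑ z, (cls (part D false) z : ZMod 9) * (idx j).1.1 z) + (idx j).1.2 * (bb D : ZMod 9)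
      else ∑ z, (cls (part D true) z : ZMod 9) * (idx j).1.1 z := by
  have key : ∀ S : Finset Blk, ∑ B ∈ S, ∑ z, (coefA B z : ZMod 9) * (idx j).1.1 z
      = ∑ z, (cls S z : ZMod 9) * (idx j).1.1 z := by
    intro S
    rw [Finset.sum_comm]
    apply Finset.sum_congr rfl
    intro z _
    rw [← Finset.sum_mul, cls]
    push_cast
    rfl
  rw [sum_legs]
  cases hj : col j
  · simp only [del, hj, if_true, Bool.true_eq_false, if_false, Finset.sum_const_zero, add_zero]
    rw [key, ← Finset.mul_sum, bb]
    push_cast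
    rfl
  · simp only [del, hj, Bool.false_eq_true, Bool.true_eq_false, if_true, if_false,
      Finset.sum_const_zero, add_zero, zero_add]
    rw [key]

lemma sum_cvec_g (D : Finset Leg) (z : Fin 8) :
    (∑ i ∈ D, cvec i) (Sum.inl z) = (cls (part D false) z : ZMod 3) := by
  rw [Finset.sum_apply, sum_legs]
  simp only [cvec, Finset.sum_const_zero, add_zero]
  rw [cls]
  push_cast
  rfl

lemma sum_cvec_om (D : Finset Leg) (B : Blk) :
    (∑ i ∈ D, cvec i) (Sum.inr (Sum.inl B)) =
      (if B ∈ part D false then 1 else 0) + (if B ∈ part D true then -1 else 0) := by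
  rw [Finset.sum_apply, sum_legs]
  simp only [cvec, Finset.sum_const_zero, add_zero]
  rw [Finset.sum_ite_eq, Finset.sum_ite_eq]

lemma sum_cvec_eta (D : Finset Leg) :
    (∑ i ∈ D, cvec i) (Sum.inr (Sum.inr ())) = (bb D : ZMod 3) := by
  rw [Finset.sum_apply, sum_legs]
  simp only [cvec, Finset.sum_const_zero, zero_add]
  rw [bb]
  push_cast
  rfl

lemma sum_gam (D : Finset Leg) : ∑ i ∈ D, gam i = ee.symm (∑ i ∈ D, cvec i) := by
  unfold gam
  rw [map_sum]

lemma sum_gam_ne (D : Finset Leg) (k : Idx) (hk : (∑ i ∈ D, cvec i) k ≠ 0) : ∑ i ∈ D, gam i ≠ 0 := by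
  rw [sum_gam]
  intro h
  have h1 : ∑ i ∈ D, cvec i = 0 := by
    have := congrArg ee h
    simpa using this
  rw [h1] at hk
  exact hk rfl

/-- coverage of the sets other than the special one. -/
lemma cover_one (S : Finset Blk) (hS : S ≠ Cstar) :
    ∃ p : Fam, p.1.2 = 0 ∧ ∑ z, (cls S z : ZMod 9) * p.1.1 z = 0 := by
  rcases comb_main S with h | h | ⟨z, z', h⟩
  · exact ⟨fam0, rfl, by simp [h]⟩
  · exact absurd h hS
  · have hne : z ≠ z' := by
      rintro rfl
      apply h
      simp
    set f : Fin 8 → ZMod 9 := fun w => if w = z then (cls S z' : ZMod 9) else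
      if w = z' then -(cls S z : ZMod 9) else 0 with hf
    have hsum : ∀ g : Fin 8 → ZMod 9, ∑ w, g w * f w = g z * (cls S z' : ZMod 9)
        - g z' * (cls S z : ZMod 9) := by
      intro g
      rw [← Finset.add_sum_erase Finset.univ _ (Finset.mem_univ z),
        ← Finset.add_sum_erase (Finset.univ.erase z) _ (Finset.mem_erase.2 ⟨hne.symm, Finset.mem_univ z'⟩)]
      rw [Finset.sum_eq_zero]
      · simp only [hf, if_true, hne.symm, if_false]
        ring
      · intro w hw
        simp only [Finset.mem_erase, Finset.mem_univ, and_true] at hw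
        simp [hf, hw.1, hw.2]
    refine ⟨⟨(f, 0), by simp, ?_⟩, rfl, ?_⟩
    · show 3 * ∑ w, (vv w : ZMod 9) * f w ≠ 0
      rw [hsum]
      intro h0
      apply h
      have h1 : ((3 * (vv z * cls S z' - vv z' * cls S z) : ℤ) : ZMod 9) = 0 := by
        push_cast
        exact h0
      rw [ZMod.intCast_zmod_eq_zero_iff_dvd] at h1
      push_cast at h1
      omega
    · show ∑ w, (cls S w : ZMod 9) * f w = 0
      rw [hsum]
      ring

/-- coverage of the special set together with a nontrivial gadget class. -/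
lemma cover_two (b : ℤ) (hb : ¬ (3 : ℤ) ∣ b) :
    ∃ p : Fam, (∑ z, (cls Cstar z : ZMod 9) * p.1.1 z) + p.1.2 * (b : ZMod 9) = 0 := by
  refine ⟨⟨(Pi.single 0 1, ((3 * b : ℤ) : ZMod 9)), ?_, fam0.2.2⟩, ?_⟩
  · show 3 * ((3 * b : ℤ) : ZMod 9) = 0
    have : (3 : ZMod 9) * ((3 * b : ℤ) : ZMod 9) = ((9 * b : ℤ) : ZMod 9) := by
      push_cast; ring
    rw [this, ZMod.intCast_zmod_eq_zero_iff_dvd]
    exact ⟨b, rfl⟩
  · show (∑ z, (cls Cstar z : ZMod 9) * (Pi.single 0 1 : Fin 8 → ZMod 9) z)
      + ((3 * b : ℤ) : ZMod 9) * (b : ZMod 9) = 0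
    have h1 : (∑ z, (cls Cstar z : ZMod 9) * (Pi.single 0 1 : Fin 8 → ZMod 9) z) = ((-3 : ℤ) : ZMod 9) := by
      rw [Finset.sum_eq_single 0]
      · rw [cls_Cstar]; simp
      · intro z _ hz
        simp [Pi.single_eq_of_ne hz]
      · intro h; exact absurd (Finset.mem_univ _) h
    rw [h1, ← Int.cast_mul, ← Int.cast_add, ZMod.intCast_zmod_eq_zero_iff_dvd]
    have h2 : b % 3 = 1 ∨ b % 3 = 2 := by omega
    obtain ⟨k, hk⟩ : ∃ k, b = 3 * k + 1 ∨ b = 3 * k + 2 := ⟨b / 3, by omega⟩
    rcases hk with hk | hk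
    · subst hk
      exact ⟨3 * k ^ 2 + 2 * k, by push_cast; ring⟩
    · subst hk
      exact ⟨3 * k ^ 2 + 4 * k + 1, by push_cast; ring⟩

/-- the translation vectors of the legs. -/
noncomputable def tt (i : Leg) (x : ZMod N → KK) : ZMod N → (Idx → ZMod 9) :=
  XX.tau (del idx col i) (gam i) x

lemma tt_sum (D : Finset Leg) (x : ZMod N → KK) :
    ∑ i ∈ D, tt idx col i x = XX.tau (fun j => ∑ i ∈ D, del idx col i j) (∑ i ∈ D, gam i) x := by
  unfold tt
  exact XX.tau_sum D (del idx col) gam x

lemma tt_code (D : Finset Leg) (hD : code D) (x : ZMod N → KK) : ∑ i ∈ D, tt idx col i x = 0 := by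
  obtain ⟨h1, h2, h3⟩ := hD
  have hb9 : ∀ θ : ZMod 9, 3 * θ = 0 → θ * (bb D : ZMod 9) = 0 := by
    intro θ hθ
    obtain ⟨k, hk⟩ := h3
    rw [hk]
    push_cast
    have : θ * (3 * (k : ZMod 9)) = 3 * θ * k := by ring
    rw [this, hθ, zero_mul]
  have hdel : (fun j => ∑ i ∈ D, del idx col i j) = fun _ => 0 := by
    funext j
    rw [sum_del]
    split_ifs with hj
    · rw [hb9 _ (idx j).2.1, add_zero]
      simp [h2]
    · rw [← h1]
      simp [h2]
  have hgam : ∑ i ∈ D, gam i = 0 := by
    rw [sum_gam]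
    have : ∑ i ∈ D, cvec i = 0 := by
      funext k
      rcases k with z | B | u
      · rw [sum_cvec_g, h2]; simp
      · rw [sum_cvec_om, ← h1]
        by_cases hB : B ∈ part D false <;> simp [hB]
      · rw [sum_cvec_eta]
        simp only [Pi.zero_apply]
        rw [ZMod.intCast_zmod_eq_zero_iff_dvd]
        exact_mod_cast h3
    rw [this, map_zero]
  rw [tt_sum, hdel, hgam]
  funext j
  simp [Ext.tau]

/-- the tile property of the sets which are not codewords. -/
lemma tt_tile (hidx : ∀ p c, ∃ j, idx j = p ∧ col j = c) (D : Finset Leg) (hD : ¬ code D)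
    (z : ZMod N → (Idx → ZMod 9)) :
    ∃! x, z - ∑ i ∈ D, tt idx col i x ∈ XX.R (N := N) := by
  simp only [tt_sum]
  have one : ∀ (k : Idx) (j0 : ZMod N), (∑ i ∈ D, cvec i) k ≠ 0 → ∑ i ∈ D, del idx col i j0 = 0 →
      ∃! x, z - XX.tau (fun j => ∑ i ∈ D, del idx col i j) (∑ i ∈ D, gam i) x ∈ XX.R (N := N) := by
    intro k j0 hk hj0
    exact XX.tile_one _ _ (sum_gam_ne D k hk) j0 hj0 z
  by_cases hne : part D false = part D true
  · -- equal parts
    rcases comb_main (part D false) with h | h | ⟨w, w', h⟩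
    · have hb : ¬ (3 : ℤ) ∣ bb D := fun hb => hD ⟨hne, h, hb⟩
      obtain ⟨j, _, hj⟩ := hidx fam0 true
      refine one (Sum.inr (Sum.inr ())) j ?_ ?_
      · rw [sum_cvec_eta]
        intro h0
        rw [ZMod.intCast_zmod_eq_zero_iff_dvd] at h0
        exact hb (by exact_mod_cast h0)
      · rw [sum_del, hj, ← hne]
        simp [h]
    · by_cases hb : (3 : ℤ) ∣ bb D
      · -- the deep class
        have hgam : ∑ i ∈ D, gam i = 0 := by
          rw [sum_gam]
          have : ∑ i ∈ D, cvec i = 0 := by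
            funext k
            rcases k with z | B | u
            · rw [sum_cvec_g, h, cls_Cstar]
              simp only [Pi.zero_apply]
              rw [ZMod.intCast_zmod_eq_zero_iff_dvd]
              split_ifs <;> decide
            · rw [sum_cvec_om, ← hne]
              by_cases hB : B ∈ part D false <;> simp [hB]
            · rw [sum_cvec_eta]
              simp only [Pi.zero_apply]
              rw [ZMod.intCast_zmod_eq_zero_iff_dvd]
              exact_mod_cast hb
          rw [this, map_zero]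
        rw [hgam]
        apply XX.tile_two
        intro j
        have hb9 : ∀ θ : ZMod 9, 3 * θ = 0 → θ * (bb D : ZMod 9) = 0 := by
          intro θ hθ
          obtain ⟨k, hk⟩ := hb
          rw [hk]
          push_cast
          have : θ * (3 * (k : ZMod 9)) = 3 * θ * k := by ring
          rw [this, hθ, zero_mul]
        have h36 : ∀ y : ZMod 9, 3 * y ≠ 0 → (-(3 * y) = 3 ∨ -(3 * y) = 6) := by decide
        have hval : ∑ z, (cls Cstar z : ZMod 9) * (idx j).1.1 z
            = -(3 * ∑ z, (vv z : ZMod 9) * (idx j).1.1 z) := by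
          rw [Finset.mul_sum, ← Finset.sum_neg_distrib]
          apply Finset.sum_congr rfl
          intro z _
          have : (cls Cstar z : ZMod 9) = -(3 * (vv z : ZMod 9)) := by
            revert z
            decide
          rw [this]; ring
        rw [sum_del]
        split_ifs with hj
        · rw [hb9 _ (idx j).2.1, add_zero, h, hval]
          exact h36 _ (idx j).2.2
        · rw [← hne, h, hval]
          exact h36 _ (idx j).2.2
      · obtain ⟨p, hp⟩ := cover_two (bb D) hb
        obtain ⟨j, hjp, hj⟩ := hidx p false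
        refine one (Sum.inr (Sum.inr ())) j ?_ ?_
        · rw [sum_cvec_eta]
          intro h0
          rw [ZMod.intCast_zmod_eq_zero_iff_dvd] at h0
          exact hb (by exact_mod_cast h0)
        · rw [sum_del, hj, if_pos rfl, h, hjp]
          exact hp
    · have hS : part D true ≠ Cstar := by
        intro hS
        rw [hne, hS, cls_Cstar, cls_Cstar] at h
        apply h
        have : ∀ w w' : Fin 8, (3 : ℤ) ∣ vv w * (if w' = 7 then -6 else -3)
            - vv w' * (if w = 7 then -6 else -3) := by decide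
        exact this w w'
      obtain ⟨p, _, hp⟩ := cover_one (part D true) hS
      obtain ⟨j, hjp, hj⟩ := hidx p true
      have hex : ∃ z, (∑ i ∈ D, cvec i) (Sum.inl z) ≠ 0 := by
        by_contra hcon
        push Not at hcon
        apply h
        have h3 : ∀ z, (3 : ℤ) ∣ cls (part D false) z := by
          intro z
          have := hcon z
          rw [sum_cvec_g, ZMod.intCast_zmod_eq_zero_iff_dvd] at this
          exact_mod_cast this
        exact dvd_sub (Dvd.dvd.mul_left (h3 w') _) (Dvd.dvd.mul_left (h3 w) _)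
      obtain ⟨z0, hz0⟩ := hex
      refine one (Sum.inl z0) j hz0 ?_
      rw [sum_del, hj, hjp]
      simpa using hp
  · -- different parts
    have hex : ∃ B, (∑ i ∈ D, cvec i) (Sum.inr (Sum.inl B)) ≠ 0 := by
      by_contra hcon
      push Not at hcon
      apply hne
      ext B
      have := hcon B
      rw [sum_cvec_om] at this
      by_cases h1 : B ∈ part D false <;> by_cases h2 : B ∈ part D true
      · exact iff_of_true h1 h2
      · simp [h1, h2] at this
      · simp [h1, h2] at this
      · exact iff_of_false h1 h2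
    obtain ⟨B, hB⟩ := hex
    by_cases h1 : part D true = Cstar
    · have h0 : part D false ≠ Cstar := fun h0 => hne (h0.trans h1.symm)
      obtain ⟨p, hp0, hp⟩ := cover_one (part D false) h0
      obtain ⟨j, hjp, hj⟩ := hidx p false
      refine one _ j hB ?_
      rw [sum_del, hj, if_pos rfl, hjp, hp, hp0, zero_mul, zero_add]
    · obtain ⟨p, hp0, hp⟩ := cover_one (part D true) h1
      obtain ⟨j, hjp, hj⟩ := hidx p true
      refine one _ j hB ?_
      rw [sum_del, hj, hjp]
      simpa using hp

/-- one functional vanishes on each leg. -/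
lemma del_zero (hidx : ∀ p c, ∃ j, idx j = p ∧ col j = c) (i : Leg) : ∃ j, del idx col i j = 0 := by
  rcases i with ⟨B, c⟩ | h
  · obtain ⟨j, _, hj⟩ := hidx fam0 (!c)
    refine ⟨j, ?_⟩
    simp only [del, hj]
    cases c <;> simp
  · obtain ⟨j, _, hj⟩ := hidx fam0 true
    exact ⟨j, by simp [del, hj]⟩

lemma del_alt (hcol : ∀ j, col (j + 1) = !(col j)) (i : Leg) (j : ZMod N) :
    del idx col i j = 0 ∨ del idx col i (j + 1) = 0 := by
  rcases i with ⟨B, c⟩ | h
  · by_cases hc : c = col j
    · right
      simp only [del, hcol]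
      rw [← hc]
      cases c <;> simp
    · left
      simp [del, hc]
  · cases hj : col j
    · right
      simp [del, hcol, hj]
    · left
      simp [del, hj]

lemma cvec_ne (i : Leg) : ∃ k, cvec i k ≠ 0 := by
  rcases i with ⟨B, c⟩ | h
  · cases c
    · exact ⟨Sum.inr (Sum.inl B), by simp [cvec]⟩
    · exact ⟨Sum.inr (Sum.inl B), by simp [cvec]⟩
  · refine ⟨Sum.inr (Sum.inr ()), ?_⟩
    simp only [cvec]
    revert h
    decide

lemma gam_ne (i : Leg) : gam i ≠ 0 := by
  obtain ⟨k, hk⟩ := cvec_ne i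
  intro h
  have : cvec i = 0 := by
    have := congrArg ee h
    simpa [gam] using this
  rw [this] at hk
  exact hk rfl

lemma tt_sing (hidx : ∀ p c, ∃ j, idx j = p ∧ col j = c) (i : Leg)
    (z : ZMod N → (Idx → ZMod 9)) : ∃! x, z - tt idx col i x ∈ XX.R (N := N) := by
  obtain ⟨j, hj⟩ := del_zero idx col hidx i
  exact XX.tile_one _ _ (gam_ne i) j hj z

lemma tt_subgroup (hcol : ∀ j, col (j + 1) = !(col j)) (i : Leg) :
    ∃ H : AddSubgroup (ZMod N → (Idx → ZMod 9)), ∀ w, w ∈ H ↔ ∃ x, tt idx col i x = w :=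
  XX.exists_subgroup _ _ (gam_ne i) (del_alt idx col hcol i)

end Cycle

/-- The spike is the matroid of an ideal scheme. -/
theorem spike_scheme : ∃ (E : Type) (_ : Fintype E) (_ : Nonempty E) (π : GS Leg → E → ℕ) (q : ℕ),
    2 ≤ q ∧ ∀ X e, (fib π X e).card * q ^ rk code X = Fintype.card E := by
  classical
  obtain ⟨N, _, idx, col, hcol, hidx⟩ := exists_cycle Fam
  choose H hH using tt_subgroup idx col hcol
  have hsurj : ∀ i, ∀ h ∈ H i, ∃ t, tt idx col i t = h := fun i h hh => (hH i h).1 hh
  have hτH : ∀ i t, tt idx col i t ∈ H i := fun i t => (hH i _).2 ⟨t, rfl⟩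
  have hsing := tt_sing idx col hidx
  have hι : 2 ≤ Fintype.card Leg := by rw [card_Leg]; norm_num
  have hmain := scheme_fib (τ := tt idx col) (H := H) (R := XX.R (N := N)) hsurj hτH hsing hι code
    (fun D hD t => tt_code idx col D hD t) (fun D hD z => tt_tile idx col hidx D hD z)
  have hT : 2 ≤ Fintype.card (ZMod N → KK) := by
    rw [Fintype.card_fun, card_KK, ZMod.card]
    have hN : 1 ≤ N := Nat.one_le_iff_ne_zero.2 (NeZero.ne N)
    calc 2 ≤ (3 ^ 23) ^ 1 := by norm_num
      _ ≤ (3 ^ 23) ^ N := Nat.pow_le_pow_right (by norm_num) hN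
  have hRel : Nonempty (Rel H (XX.R (N := N))) := by
    let i0 : Leg := Sum.inr 0
    obtain ⟨t, ht, _⟩ := hsing i0 0
    refine ⟨⟨fun i => if i = i0 then -tt idx col i0 t else 0, ?_, ?_⟩⟩
    · intro i
      by_cases hi : i = i0
      · subst hi
        simpa using hτH i0 t
      · simp [hi]
    · rw [Finset.sum_ite_eq' Finset.univ i0]
      simpa using ht
  refine ⟨(ZMod N → KK) × Rel H (XX.R (N := N)), inferInstance, inferInstance,
    shareN (tt idx col) H (XX.R (N := N)), Fintype.card (ZMod N → KK), hT, ?_⟩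
  intro X e
  rw [hmain X e]
  have h1 := hmain ∅ e
  rw [rk_empty hι, pow_zero, mul_one] at h1
  rw [← h1]
  have h2 : fib (shareN (tt idx col) H (XX.R (N := N))) ∅ e = Finset.univ := by
    ext e'; simp [mem_fib]
  rw [h2, Finset.card_univ]

end Run7.h295
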