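import Mathlib
import Pool.Agent.Run7.h295.Main
import Pool.Agent.Run7.h295.Linear
import Pool.Agent.Run7.h295.Entropy

set_option autoImplicit false
set_option linter.unusedSectionVars false

namespace Run7.h295

open Finset

instance (D : Finset Leg) : Decidable (code D) := by unfold code; infer_instance

/-- the doubled rows. -/
def Crow (k : Fin 6) : Finset Leg :=
  (row k).image (fun B => (Sum.inl (B, false) : Leg)) ∪ (row k).image (fun B => (Sum.inl (B, true) : Leg))

/-- the doubled special set. -/
def Cst2 : Finset Leg :=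
  Cstar.image (fun B => (Sum.inl (B, false) : Leg)) ∪ Cstar.image (fun B => (Sum.inl (B, true) : Leg))

/-- the gadget codewords. -/
def Gad (k : Fin 4) : Finset Leg :=
  if k = 0 then {Sum.inr 0, Sum.inr 1, Sum.inr 2} else
  if k = 1 then {Sum.inr 0, Sum.inr 3} else
  if k = 2 then {Sum.inr 1, Sum.inr 3} else {Sum.inr 2, Sum.inr 3}

lemma part_double (S : Finset Blk) (c : Bool) :
    part (S.image (fun B => (Sum.inl (B, false) : Leg)) ∪ S.image (fun B => (Sum.inl (B, true) : Leg))) c = S := by
  ext B
  simp only [part, Finset.mem_filter, Finset.mem_univ, true_and, Finset.mem_union, Finset.mem_image,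
    Sum.inl.injEq, Prod.mk.injEq]
  cases c <;> simp

lemma bb_double (S : Finset Blk) :
    bb (S.image (fun B => (Sum.inl (B, false) : Leg)) ∪ S.image (fun B => (Sum.inl (B, true) : Leg))) = 0 := by
  unfold bb
  have : Finset.univ.filter (fun h => (Sum.inr h : Leg) ∈
      (S.image (fun B => (Sum.inl (B, false) : Leg)) ∪ S.image (fun B => (Sum.inl (B, true) : Leg)))) = ∅ := by
    ext h
    simp
  rw [this]
  rfl

lemma mem_double (S : Finset Blk) (B : Blk) (c : Bool) :
    (Sum.inl (B, c) : Leg) ∈ (S.image (fun B => (Sum.inl (B, false) : Leg)) ∪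
      S.image (fun B => (Sum.inl (B, true) : Leg))) ↔ B ∈ S := by
  simp only [Finset.mem_union, Finset.mem_image, Sum.inl.injEq, Prod.mk.injEq]
  cases c <;> simp

lemma inr_mem_double (S : Finset Blk) (h : Fin 4) :
    (Sum.inr h : Leg) ∉ (S.image (fun B => (Sum.inl (B, false) : Leg)) ∪
      S.image (fun B => (Sum.inl (B, true) : Leg))) := by
  simp

lemma code_empty : code ∅ := by
  refine ⟨?_, ?_, ?_⟩
  · simp [part]
  · intro z; simp [part, cls]
  · simp [bb]

lemma code_Crow (k : Fin 6) : code (Crow k) := by
  unfold code Crow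
  rw [part_double, part_double, bb_double]
  exact ⟨rfl, cls_row k, dvd_zero 3⟩

lemma not_code_Cst2 : ¬ code Cst2 := by
  unfold code Cst2
  rw [part_double, part_double, bb_double]
  rintro ⟨_, h, _⟩
  have := h 0
  rw [cls_Cstar] at this
  simp at this

lemma inl_notMem_Gad : ∀ (k : Fin 4) (x : Blk × Bool), (Sum.inl x : Leg) ∉ Gad k := by
  intro k x
  unfold Gad
  split_ifs <;> simp

lemma code_Gad : ∀ k, code (Gad k) := by
  intro k
  have h1 : ∀ c, part (Gad k) c = ∅ := by
    intro c
    ext B
    simp [part, inl_notMem_Gad]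
  refine ⟨by rw [h1, h1], by intro z; rw [h1]; rfl, ?_⟩
  revert k
  decide

lemma not_code_single : ¬ code {Sum.inr 0} := by
  rintro ⟨_, _, h⟩
  revert h
  decide

/-- counting rows through a point. -/
lemma count_rows : ∀ B : Blk, (∑ k : Fin 6, if B ∈ row k then 1 else 0) % 3 = if B ∈ Cstar then 1 else 0 := by
  decide

/-- the spike is not multilinear. -/
theorem spike_not_linear {K V : Type} [Field K] [AddCommGroup V] [Module K V]
    [FiniteDimensional K V] (U : GS Leg → Submodule K V) (d : ℕ) (hd : 0 < d)
    (hU : ∀ X : Finset (GS Leg),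
      Module.finrank K V = Module.finrank K (↥(⨅ i ∈ X, U i)) + rk code X * d) : False := by
  have hι : 2 ≤ Fintype.card Leg := by rw [card_Leg]; norm_num
  have obs := fun (κ : Type) (_ : Fintype κ) (C : κ → Finset Leg) (hC : ∀ k, code (C k)) (c : κ → K)
      (D : Finset Leg) (hD : ¬ code D)
      (hcomb : ∀ i, ∑ k, (if i ∈ C k then c k else 0) = if i ∈ D then 1 else 0) =>
    linear_obstruction U (rk code) d 32 hd hU (rk_tip hι code) (fun i b => rk_leg hι code i b)
      (fun i => rk_leg' hι code i) code
      (fun D hD => ⟨by rw [rk_trans_code code D hD, card_Leg], by rw [rk_ins_trans, card_Leg]⟩)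
      (fun D hD => ⟨by rw [rk_trans_ncode code D hD, card_Leg], by rw [rk_ins_trans, card_Leg]⟩)
      κ C hC c code_empty D hD hcomb
  by_cases h3 : (3 : K) = 0
  · refine obs (Fin 6) inferInstance Crow code_Crow (fun _ => 1) Cst2 not_code_Cst2 ?_
    intro i
    rcases i with ⟨B, c⟩ | h
    · have h1 : ∀ k, ((Sum.inl (B, c) : Leg) ∈ Crow k) ↔ B ∈ row k := fun k => mem_double _ _ _
      have h2 : ((Sum.inl (B, c) : Leg) ∈ Cst2) ↔ B ∈ Cstar := mem_double _ _ _
      simp only [h1, h2]
      have h4 := count_rows B
      have h5 : (∑ k : Fin 6, if B ∈ row k then (1 : K) else 0)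
          = ((∑ k : Fin 6, if B ∈ row k then 1 else 0 : ℕ) : K) := by
        push_cast
        rfl
      rw [h5, ← Nat.div_add_mod (∑ k : Fin 6, if B ∈ row k then 1 else 0) 3, h4]
      push_cast
      rw [h3, zero_mul, zero_add]
    · have h1 : ∀ k, (Sum.inr h : Leg) ∉ Crow k := fun k => inr_mem_double _ _
      have h2 : (Sum.inr h : Leg) ∉ Cst2 := inr_mem_double _ _
      simp [h1, h2]
  · refine obs (Fin 4) inferInstance Gad code_Gad
      (fun k => if k = 0 then 1 / 3 else if k = 1 then 2 / 3 else - 1 / 3) {Sum.inr 0}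
      not_code_single ?_
    intro i
    rcases i with x | h
    · simp [inl_notMem_Gad]
    · rw [Fin.sum_univ_four]
      fin_cases h
      · simp [Gad]
        field_simp
        norm_num
      · simp [Gad]
        field_simp
        norm_num
      · simp [Gad]
        field_simp
        norm_num
      · simp [Gad]
        field_simp
        norm_num

end Run7.h295
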